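import Pool.Agent.Helper59.PLG.Defs
import Pool.Agent.Helper17.FF.Const
import Pool.Agent.Helper10.UT.R1

/-!
# Project FF (MP_e66f84_ag): the pro-`ℓ` section conjecture for general twists over function fields

`F` a finitely generated field of characteristic zero, `k / F` a function field of one variable, `Y` a curve over
`k` with function field `K0`, `c y ^ ℓ = h` a twist of a cyclic cover `r ^ ℓ = h` of prime degree, `U` the maximal
unramified extension of `MM = E K0 (r)`, where `E` is an algebraic closure of `k`.  Galois sections act on `U`: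
`Φ : (E ≃ₐ[k] E) →* (U ≃+* U)`.
-/

set_option autoImplicit false

namespace Pool.Agent.FFS

open VC IntermediateField Polynomial Pool.Agent.SC Pool.Agent.Helper91.Sect
open Pool.Agent.L (L0 MM)
open Pool.Agent.LN (Geo Act GoodCurve)
open Pool.Agent.M (Moves OverPl inL0)
open Pool.Agent.ML (BPl GBr)
open Pool.Agent.TOW (Au AuE)
open Pool.Agent.PRL (TT IsPL RtM)
open Pool.Agent.PRG (RatG TG KBX)

noncomputable section

/-! ## Places of the base field and the conditions on `c` -/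

/-- `W` is a place of the algebraic closure `E` of `k`, over `F`, at which the elements of `S` are finite. -/
structure GoodW (F : Type) {k E : Type} [Field F] [Field k] [Field E] [Algebra F k] [Algebra k E]
    (S : Set k) (W : ValuationSubring E) : Prop where
  ne : W ≠ ⊤
  const : ∀ z : F, algebraMap k E (algebraMap F k z) ∈ W
  mem : ∀ a ∈ S, algebraMap k E a ∈ W

/-- `γ` is trivial on the set `B` -/
def OnB {k E : Type} [Field k] [Field E] [Algebra k E] (B : Set E) (γ : E ≃ₐ[k] E) : Prop :=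
  ∀ b ∈ B, γ b = b

/-- The conditions on `c` and on the zero `W₀` of `c` (`k' = k(B)`): `W₀` is a good simple zero (`good`, `zero`,
`gen`), `c` has no poles at good places (`reg`); it is the only one up to conjugation (`conj`, H3); its decomposition group maps onto the group of `k'` over `k`
(`surj`, H2); every extension `k'(r)`, `r ^ ℓ ∈ k'`, which is unramified at all good places and in which the zeros of
`c` split completely is trivial (`kum`, H1'). -/
structure HypC (F : Type) {k E : Type} [Field F] [Field k] [Field E] [Algebra F k] [Algebra k E]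
    (S : Set k) (B : Set E) (ℓ : ℕ) (c : k) (W₀ : ValuationSubring E) : Prop where
  good : GoodW F S W₀
  c0 : c ≠ 0
  zero : algebraMap k E c ∈ W₀.nonunits
  reg : ∀ W, GoodW F S W → algebraMap k E c ∈ W
  gen : ∀ z : k, z ≠ 0 → ∃ i : ℤ, W₀.valuation (algebraMap k E z) =
    W₀.valuation (algebraMap k E c) ^ i
  conj : ∀ W, GoodW F S W → algebraMap k E c ∈ W.nonunits →
    ∃ γ : E ≃ₐ[k] E, ∀ z, γ z ∈ W₀ ↔ z ∈ W
  surj : ∀ γ : E ≃ₐ[k] E, ∃ δ : E ≃ₐ[k] E, InDecomp W₀ δ ∧ ∀ b ∈ B, γ b = δ b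
  kum : ∀ r : E, (∀ γ : E ≃ₐ[k] E, OnB B γ → γ (r ^ ℓ) = r ^ ℓ) →
    (∀ W, GoodW F S W → ∀ γ : E ≃ₐ[k] E, InInert W γ → OnB B γ → γ r = r) →
    (∀ W, GoodW F S W → algebraMap k E c ∈ W.nonunits → ∀ γ : E ≃ₐ[k] E, InDecomp W γ → OnB B γ →
      γ r = r) → ∀ γ : E ≃ₐ[k] E, OnB B γ → γ r = r

/-- BLOCK FS (field side; helper10): the conditions hold for `c = ∑ a_e w_e` outside one thin set, for
every finite `S ⊆ k₀` and `B` = the roots of a polynomial over `k₀`.  (`F₀` algebraically closed in the sense of the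
hypothesis on `w`: four of the `w_e` are linearly independent over the elements of `k₀` algebraic over `F₀`.) -/
def StmtFS : Prop :=
  ∀ (F₀ k₀ : Type) [Field F₀] [CharZero F₀] [Field k₀] [Algebra F₀ k₀],
    (∃ S : Finset k₀, Subfield.closure (S : Set k₀) = ⊤) →
    (∃ t : k₀, FiniteDimensional (IntermediateField.adjoin F₀ {t}) k₀ ∧ Transcendental F₀ t) →
    ∀ (m : ℕ) (w : Fin (m + 1) → k₀) (e : Fin 4 → Fin (m + 1)),
    LinearIndependent (algebraicClosure F₀ k₀) (fun i => w (e i)) →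
    ∀ (ℓ : ℕ), ℓ.Prime → ∀ (S : Finset k₀) (f : k₀[X]), f ≠ 0 →
    ∃ S' : Finset k₀, S ⊆ S' ∧ ∃ Q : Polynomial (MvPolynomial (Fin (m + 1)) F₀), UT.NoRoot Q ∧
      ∀ (F k E : Type) [Field F] [Field k] [Field E] [Algebra F₀ F] [Algebra F k] [Algebra k₀ k]
        [Algebra F₀ k] [IsScalarTower F₀ F k] [IsScalarTower F₀ k₀ k] [Algebra k E]
        [IsAlgClosure k E],
        (∃ S : Finset F, Subfield.closure (S : Set F) = ⊤) →
        IntermediateField.adjoin F (Set.range (algebraMap k₀ k)) = ⊤ →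
        (∀ {n : ℕ} {x : Fin n → k₀}, AlgebraicIndependent F₀ x →
          AlgebraicIndependent F (algebraMap k₀ k ∘ x)) →
        ∀ a : Fin (m + 1) → F, (∀ x : F, Polynomial.eval₂ (UT.aeR a) x Q ≠ 0) →
        ∃ W₀ : ValuationSubring E, HypC F (algebraMap k₀ k '' (S' : Set k₀))
          ((f.map (algebraMap k₀ k)).rootSet E) ℓ
          (∑ e, algebraMap F k (a e) * algebraMap k₀ k (w e)) W₀

/-! ## The action of a section -/

section geo

variable {k K0 E U : Type} [Field k] [Field K0] [Field E] [Field U] [Algebra k K0]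
  [Algebra k E] [Algebra E U] [Algebra K0 U] [Algebra k U] [IsScalarTower k E U]
  [IsScalarTower k K0 U]

/-- the place `P` of `U` lies over the place `b` of `N` -/
def OverU {N : IntermediateField E U} (b : Place E N) (P : ValuationSubring U) : Prop :=
  ∀ z : N, z ∈ b.ring ↔ (z : U) ∈ P

/-- The local properties of an action: the decomposition group of `W₀` fixes a place of `U` over a branch
place; at good places which are no zeros of `c` the inertia groups fix all places of `U` over the branch places. -/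
structure LocA (F : Type) [Field F] [Algebra F k] (K0 : Type) [Field K0] [Algebra K0 U]
    (ℓ : ℕ) (h : K0) (S : Set k) (c : k)
    (W₀ : ValuationSubring E) (Φ : (E ≃ₐ[k] E) →* (U ≃+* U)) : Prop where
  bad : ∃ (b : Place E (L0 E K0 (U := U))) (P : ValuationSubring U), BPl ℓ h b ∧ OverU b P ∧
    ∀ γ : E ≃ₐ[k] E, InDecomp W₀ γ → ∀ z, Φ γ z ∈ P ↔ z ∈ P
  good : ∀ W, GoodW F S W → algebraMap k E c ∉ W.nonunits →
    ∀ (b : Place E (L0 E K0 (U := U))) (P : ValuationSubring U), BPl ℓ h b → OverU b P →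
    ∀ γ : E ≃ₐ[k] E, InInert W γ → ∀ z, Φ γ z ∈ P ↔ z ∈ P

/-- Trivialisation over `k(B)`: `B` contains the `ℓ`-th roots of unity (in the sense that they are fixed), the branch
places are fixed, and the automorphisms act trivially on the group of the maximal abelian extension of exponent `ℓ`. -/
structure TrivB (k : Type) {K0 E U : Type} [Field k] [Field K0] [Field E] [Field U]
    [Algebra k E] [Algebra E U] [Algebra K0 U] (ℓ : ℕ) (h : K0) (B : Set E) : Prop where
  mu : ∀ γ : E ≃ₐ[k] E, OnB B γ → ∀ ζ : E, ζ ^ ℓ = 1 → γ ζ = ζ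
  br : ∀ (γ : E ≃ₐ[k] E) (T : U ≃+* U), OnB B γ → (∀ x : K0, T (algebraMap K0 U x) = algebraMap K0 U x) →
    (∀ e : E, T (algebraMap E U e) = algebraMap E U (γ e)) →
    ∀ b : Place E (L0 E K0 (U := U)), BPl ℓ h b → Moves T _ b b
  comm : ∀ (γ : E ≃ₐ[k] E) (T : U ≃+* U), OnB B γ → (∀ x : K0, T (algebraMap K0 U x) = algebraMap K0 U x) →
    (∀ e : E, T (algebraMap E U e) = algebraMap E U (γ e)) →
    ∀ a : U ≃+* U, AuE E K0 a → ∀ z : U, z ^ ℓ ∈ L0 E K0 (U := U) → T (a z) = a (T z)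

end geo

/-! ## Geometry of the levels, for all fields of characteristic zero -/

/-- BLOCK PX0 (helper59; `PRL.StmtPXL` for fields of characteristic zero). -/
def StmtPX0 : Prop :=
  ∀ (k K0 E U : Type) [Field k] [CharZero k] [Field K0] [Field E] [Field U] [Algebra k K0]
    [Algebra k E] [Algebra E U] [Algebra K0 U] [Algebra k U] [IsScalarTower k E U]
    [IsScalarTower k K0 U] (ℓ : ℕ) (h : K0) (r : U), ℓ.Prime → Geo k K0 E U ℓ h r →
    ∀ N : IntermediateField E U, TW.Lvl E K0 N → MM E K0 r ≤ N →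
    (∀ (T : U ≃+* U) (Q : Place E N), AuE E K0 T → T r = r → Moves T N Q Q → ∀ z ∈ N, T z = z) ∧
    ∀ b : Place E (L0 E K0 (U := U)), BPl ℓ h b →
      (∃ Q : Place E N, OverPl b Q) ∧ {Q : Place E N | OverPl b Q}.Finite ∧
      (∀ Q Q' : Place E N, OverPl b Q → OverPl b Q' →
        ∃ a : U ≃+* U, AuE E K0 a ∧ a r = r ∧ Moves a N Q Q') ∧
      ∀ Q : Place E N, OverPl b Q → ∃ (ι : U ≃+* U) (ζ : E), AuE E K0 ι ∧ IsPrimitiveRoot ζ ℓ ∧
        ι r = algebraMap E U ζ * r ∧ Moves ι N Q Q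

/-- BLOCK TOW0 (helper59; `PRL.StmtTOWU` for fields of characteristic zero): the levels of the tower. -/
def StmtTOW0 : Prop :=
  ∀ (k K0 E U : Type) [Field k] [CharZero k] [Field K0] [Field E] [Field U] [Algebra k K0]
    [Algebra k E] [Algebra E U] [Algebra K0 U] [Algebra k U] [IsScalarTower k E U]
    [IsScalarTower k K0 U] (ℓ : ℕ) (h : K0) (r : U), ℓ.Prime → Geo k K0 E U ℓ h r → ∀ m : ℕ,
    TW.Lvl E K0 (TT E K0 r ℓ m (U := U)) ∧ MM E K0 r ≤ TT E K0 r ℓ m ∧
      IsPL E K0 ℓ (TT E K0 r ℓ m (U := U))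

/-- BLOCK BCF (helper45 + helper59): base change and finiteness of the classes of functions with orders divisible by
`ℓ` outside finitely many places. -/
def StmtBCF : Prop :=
  ∀ (A L : Type) [Field A] [CharZero A] [IsAlgClosed A] [Field L] [Algebra A L], IsFunctionField A L →
    ∀ (S : Finset (Place A L)) (ℓ : ℕ), ℓ.Prime → ∃ T : Finset L, (∀ u ∈ T, u ≠ 0) ∧
      ∀ (Ω M : Type) [Field Ω] [IsAlgClosed Ω] [Field M] [Algebra A Ω] [Algebra Ω M] [Algebra L M]
        [Algebra A M] [IsScalarTower A Ω M] [IsScalarTower A L M], FF.IsConstExt A Ω L M →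
        ∀ u : M, u ≠ 0 → (∀ Q : Place Ω M, (∀ P ∈ S, ¬ FF.Over Q P) → (ℓ : ℤ) ∣ ord Q.ring u) →
        ∃ f ∈ T, ∃ v : M, u = algebraMap L M f * v ^ ℓ

/-- BLOCK KP (helper59; from `StmtBCF` for the algebraic closure of `k₀`): one polynomial over `k₀` whose roots
trivialise. -/
def StmtKP : Prop :=
  ∀ (k₀ K₀ : Type) [Field k₀] [CharZero k₀] [Field K₀] [Algebra k₀ K₀], IsFunctionField k₀ K₀ →
    ∀ (ℓ : ℕ), ℓ.Prime → ∀ h₀ : K₀, h₀ ≠ 0 → ∃ f : k₀[X], f ≠ 0 ∧
      ∀ (k K0 E U : Type) [Field k] [Field K0] [Field E] [Field U] [Algebra k K0]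
        [Algebra k E] [Algebra E U] [Algebra K0 U] [Algebra k U] [IsScalarTower k E U]
        [IsScalarTower k K0 U] [Algebra k₀ k] [Algebra K₀ K0] [Algebra k₀ K0]
        [IsScalarTower k₀ k K0] [IsScalarTower k₀ K₀ K0],
        IntermediateField.adjoin k (Set.range (algebraMap K₀ K0)) = ⊤ →
        (∃ y : K₀, Transcendental k (algebraMap K₀ K0 y)) →
        ∀ r : U, Geo k K0 E U ℓ (algebraMap K₀ K0 h₀) r →
        TrivB k (U := U) ℓ (algebraMap K₀ K0 h₀) ((f.map (algebraMap k₀ k)).rootSet E)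

/-- BLOCK LEV (helper13; from the abstract theorem, `StmtPX0`): a section which satisfies the local
properties fixes, on every level of the pro-`ℓ` tower, the place below one place `P` of `U`. -/
def StmtLEV : Prop :=
  ∀ (F k K0 E U : Type) [Field F] [Field k] [CharZero k] [Field K0] [Field E] [Field U] [Algebra F k]
    [Algebra k K0] [Algebra k E] [Algebra E U] [Algebra K0 U] [Algebra k U] [IsScalarTower k E U]
    [IsScalarTower k K0 U] (ℓ : ℕ) (h : K0) (r : U), ℓ.Prime → Geo k K0 E U ℓ h r →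
    ∀ (S : Set k) (B : Set E) (c c' : k) (W₀ : ValuationSubring E), HypC F S B ℓ c W₀ →
    B.Finite → (∀ g : E ≃ₐ[k] E, ∀ b ∈ B, g b ∈ B) → TrivB k (U := U) ℓ h B →
    ∀ Φ : (E ≃ₐ[k] E) →* (U ≃+* U), Act (K0 := K0) ℓ r c' Φ → LocA F K0 ℓ h S c W₀ Φ →
    ∃ (b : Place E (L0 E K0 (U := U))) (P : ValuationSubring U), BPl ℓ h b ∧ OverU b P ∧
      (∀ g : E ≃ₐ[k] E, Moves (Φ g) _ b b) ∧
      ∀ N : IntermediateField E U, TW.Lvl E K0 N → MM E K0 r ≤ N → IsPL E K0 ℓ N →
        ∀ z ∈ N, ∀ g : E ≃ₐ[k] E, Φ g z ∈ P ↔ z ∈ P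

/-! ## The absolute form -/

/-- The section `s` of `K` fixes a place of the whole pro-`ℓ` tower above the place `P` of `K0`. -/
def AgrI {k K0 K : Type} [Field k] [Field K0] [Field K] [Algebra k K] [Algebra K0 K]
    (s : GaloisSection k K) (y : K) (ℓ : ℕ) (P : ValuationSubring K0) : Prop :=
  ∃ Q : ValuationSubring (AlgebraicClosure K), (∀ z, IsAlgebraic k z → z ∈ Q) ∧
    (∀ x : K0, x ∈ P ↔ algebraMap K (AlgebraicClosure K) (algebraMap K0 K x) ∈ Q) ∧
    ∀ m : ℕ, ∀ w ∈ TG k K0 y ℓ m, ∃ hw : w ∈ Kur k K, ∀ g : Gk k K,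
      (w ∈ Q ↔ (s.toHom g ⟨w, hw⟩ : AlgebraicClosure K) ∈ Q)

/-- BLOCK LOC (helper20; from `GC.CycE.place_of_bad`, `GC.CycE.fixes_of_good`, `SE` coordinates; the transfer
as `PRG.StmtTRG`): the local properties of all sections, and the transfer. -/
def StmtLOC : Prop :=
  ∀ (k₀ K₀ : Type) [Field k₀] [CharZero k₀] [Field K₀] [Algebra k₀ K₀], IsFunctionField k₀ K₀ →
    ∀ (ℓ : ℕ), ℓ.Prime → ∀ h₀ : K₀, h₀ ≠ 0 → ∃ (S : Finset k₀),
      ∀ (F k K0 : Type) [Field F] [Field k] [Field K0] [Algebra F k] [Algebra k K0]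
        [Algebra k₀ k] [Algebra K₀ K0] [Algebra k₀ K0] [IsScalarTower k₀ k K0] [IsScalarTower k₀ K₀ K0],
        (∃ S : Finset F, Subfield.closure (S : Set F) = ⊤) →
        (∃ t : k, FiniteDimensional (IntermediateField.adjoin F {t}) k) →
        IntermediateField.adjoin k (Set.range (algebraMap K₀ K0)) = ⊤ →
        (∃ y : K₀, Transcendental k (algebraMap K₀ K0 y)) →
        GoodCurve k ℓ (algebraMap K₀ K0 h₀) →
        ∃ (E U : Type) (_ : Field E) (_ : Field U) (_ : Algebra k E) (_ : Algebra E U)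
          (_ : Algebra K0 U) (_ : Algebra k U) (_ : IsScalarTower k E U) (_ : IsScalarTower k K0 U)
          (r : U), IsAlgClosure k E ∧ Geo k K0 E U ℓ (algebraMap K₀ K0 h₀) r ∧
          ∀ (c : k) (W₀ : ValuationSubring E) (S' : Set k) (B : Set E),
          (∀ a ∈ S, algebraMap k₀ k a ∈ S') → HypC F S' B ℓ c W₀ →
          ∀ (K : Type) [Field K] [Algebra k K] [Algebra K0 K] [IsScalarTower k K0 K]
          (y : K), algebraMap k K c * y ^ ℓ = algebraMap K0 K (algebraMap K₀ K0 h₀) →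
          ∀ s : GaloisSection k K,
          ∃ Φ : (E ≃ₐ[k] E) →* (U ≃+* U), Act (K0 := K0) ℓ r c⁻¹ Φ ∧
            LocA F K0 ℓ (algebraMap K₀ K0 h₀) S' c W₀ Φ ∧
            ∀ (b : Place E (L0 E K0 (U := U))) (P : ValuationSubring U), OverU b P →
            (∀ m : ℕ, ∀ z ∈ TT E K0 r ℓ m (U := U), ∀ g : E ≃ₐ[k] E, Φ g z ∈ P ↔ z ∈ P) →
            ∀ P₀ : ValuationSubring K0, (∀ x : K0, x ∈ P₀ ↔ inL0 x ∈ b.ring) → AgrI s y ℓ P₀

/-- BLOCK MAIN (from all blocks). -/
def StmtMain : Prop :=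
  ∀ (F₀ k₀ K₀ : Type) [Field F₀] [CharZero F₀] [Field k₀] [Algebra F₀ k₀] [Field K₀] [Algebra k₀ K₀],
    (∃ S : Finset k₀, Subfield.closure (S : Set k₀) = ⊤) →
    (∃ t : k₀, FiniteDimensional (IntermediateField.adjoin F₀ {t}) k₀ ∧ Transcendental F₀ t) →
    IsFunctionField k₀ K₀ →
    ∀ (m : ℕ) (w : Fin (m + 1) → k₀) (e : Fin 4 → Fin (m + 1)),
    LinearIndependent (algebraicClosure F₀ k₀) (fun i => w (e i)) →
    ∀ (ℓ : ℕ), ℓ.Prime → ∀ h₀ : K₀, h₀ ≠ 0 →
    ∃ Q : Polynomial (MvPolynomial (Fin (m + 1)) F₀), UT.NoRoot Q ∧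
      ∀ (F k K0 : Type) [Field F] [Field k] [Field K0] [Algebra F₀ F] [Algebra F k] [Algebra k₀ k]
        [Algebra F₀ k] [IsScalarTower F₀ F k] [IsScalarTower F₀ k₀ k] [Algebra k K0]
        [Algebra K₀ K0] [Algebra k₀ K0] [IsScalarTower k₀ k K0] [IsScalarTower k₀ K₀ K0],
        (∃ S : Finset F, Subfield.closure (S : Set F) = ⊤) →
        IntermediateField.adjoin F (Set.range (algebraMap k₀ k)) = ⊤ →
        (∀ {n : ℕ} {x : Fin n → k₀}, AlgebraicIndependent F₀ x →
          AlgebraicIndependent F (algebraMap k₀ k ∘ x)) →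
        IntermediateField.adjoin k (Set.range (algebraMap K₀ K0)) = ⊤ →
        (∃ y : K₀, Transcendental k (algebraMap K₀ K0 y)) →
        GoodCurve k ℓ (algebraMap K₀ K0 h₀) →
        ∀ a : Fin (m + 1) → F, (∀ x : F, Polynomial.eval₂ (UT.aeR a) x Q ≠ 0) →
        ∀ (K : Type) [Field K] [Algebra k K] [Algebra K0 K] [IsScalarTower k K0 K] (y : K),
        algebraMap k K (∑ e, algebraMap F k (a e) * algebraMap k₀ k (w e)) * y ^ ℓ =
          algebraMap K0 K (algebraMap K₀ K0 h₀) →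
        ∀ s : GaloisSection k K, ∃ b : GBr k (AlgebraicClosure k) ℓ (algebraMap K₀ K0 h₀),
          RatG b ∧ AgrI s y ℓ b.P

end

end Pool.Agent.FFS
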