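import Pool.Agent.Helper13.FF.EPFb

/-!
# Project FF, block EPF: the reduction to the key statement
-/

universe u

namespace Pool.Agent.FFX

open IntermediateField Pool.Agent.OPN Pool.Agent.Helper37.UL UL Pool.Agent.OPG Pool.Agent.UT Pool.Agent.SE

/-- The transcendence degree is one. -/
theorem n_zero {F₀ k₀ : Type u} [Field F₀] [Field k₀] [Algebra F₀ k₀] {t : k₀}
    (hfin : FiniteDimensional (adjoin F₀ {t}) k₀) (ht : Transcendental F₀ t) {n : ℕ} {s : Fin n → k₀}
    {T : k₀} (hb : IsTranscendenceBasis F₀ (Sum.elim s fun _ : Unit => T)) : n = 0 := by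
  have h1 : AlgebraicIndependent F₀ (fun _ : Unit => t) :=
    algebraicIndependent_unique_type_iff.2 ht
  have h2 : IsTranscendenceBasis F₀ (fun _ : Unit => t) := by
    refine h1.isTranscendenceBasis_iff_isAlgebraic.2 ?_
    have h3 : Set.range (fun _ : Unit => t) = {t} := Set.range_const
    rw [h3]
    have h4 : Algebra.IsAlgebraic (adjoin F₀ {t}) k₀ := inferInstance
    open scoped IntermediateField.algebraAdjoinAdjoin in
    exact (IsFractionRing.comap_isAlgebraic_iff (A := Algebra.adjoin F₀ {t}) (K := adjoin F₀ {t})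
      (C := k₀)).2 h4
  have h3 := hb.cardinalMk_eq h2
  simp only [Cardinal.mk_fintype, Fintype.card_sum, Fintype.card_fin, Fintype.card_unit] at h3
  have h4 : n + 1 = 1 := by exact_mod_cast h3
  omega

/-- The reduction for the indices `0`, `1`. -/
theorem thin_norm_of_keyPF {F₀ k₀ : Type u} [Field F₀] [CharZero F₀] [Field k₀] [Algebra F₀ k₀]
    {N : ℕ} {P : ∀ (k' : Type u) [Field k'], Subfield k' → (k₀ →+* k') → (Option (Fin N) → k') → Prop}
    {m : ℕ} {w : Fin (m + 2) → k₀} (key : KeyF k₀ (Set.range w) P)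
    (hk₀ : ∃ S : Finset k₀, Subfield.closure (S : Set k₀) = ⊤)
    (ht : ∃ t : k₀, FiniteDimensional (adjoin F₀ {t}) k₀ ∧ Transcendental F₀ t)
    {ei : Fin 4 → Fin (m + 2)}
    (hlin : LinearIndependent (algebraicClosure F₀ k₀) fun i => w (ei i))
    (hw0 : w 0 ≠ 0) (hT : Transcendental F₀ (w 1 / w 0)) :
    ∃ Φ : Polynomial (MvPolynomial (Fin N ⊕ Fin (m + 2)) F₀), NoRoot Φ ∧
      ∀ (F k : Type u) [Field F] [Field k] [Algebra F₀ F] [Algebra F k] [Algebra k₀ k]
        [Algebra F₀ k] [IsScalarTower F₀ F k] [IsScalarTower F₀ k₀ k],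
        (∃ S : Finset F, Subfield.closure (S : Set F) = ⊤) →
        adjoin F (Set.range (algebraMap k₀ k)) = ⊤ →
        (∀ {n : ℕ} {x : Fin n → k₀}, AlgebraicIndependent F₀ x →
          AlgebraicIndependent F (algebraMap k₀ k ∘ x)) →
        ∀ a : Fin N ⊕ Fin (m + 2) → F,
          P k (algebraMap F k).fieldRange (algebraMap k₀ k) (prm (algebraMap k₀ k ∘ w) a) →
          ∃ x : F, Polynomial.eval₂ (aeR a) x Φ = 0 := by
  classical
  by_contra hcon
  push Not at hcon
  obtain ⟨n, s, c, q, hb, hq, htop, -⟩ := fin_data1 hk₀ hT (m := m + 1) w hw0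
  obtain ⟨t, hfin, ht⟩ := ht
  have hn : n = 0 := n_zero hfin ht hb
  have halg : ∀ z : k₀, IsAlgebraic (ad (algebraMap F₀ k₀).fieldRange {w 1 / w 0}) z := by
    intro z
    have h1 : IsAlgebraic (adjoin F₀ (Set.range (Sum.elim s fun _ : Unit => w 1 / w 0))) z :=
      hb.isAlgebraic_field.isAlgebraic z
    have h2 : (adjoin F₀ (Set.range (Sum.elim s fun _ : Unit => w 1 / w 0))).toSubfield ≤
        ad (algebraMap F₀ k₀).fieldRange {w 1 / w 0} := by
      rw [adjoin_sub]
      refine ad_mono le_rfl ?_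
      subst hn
      rintro _ ⟨i | i, rfl⟩
      · exact i.elim0
      · rfl
    exact isAlgebraic_mono h2 h1
  obtain ⟨C, _, _, y, _, hy⟩ := exists_std F₀ (ℕ ⊕ (Fin n ⊕ Unit))
  let J : Type u := {Φ : Polynomial (MvPolynomial (Fin N ⊕ Fin (m + 2)) F₀) // NoRoot Φ}
  have hloc : ∀ j : J, ∃ (σ : k₀ →+* C) (b : Fin N ⊕ Fin (m + 2) → C) (Fc Kc : Subfield C),
      (∀ c : F₀, σ (algebraMap F₀ k₀ c) = algebraMap F₀ C c) ∧
      (∀ i, σ (Sum.elim s (fun _ : Unit => w 1 / w 0) i) = y (Sum.inr i)) ∧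
      (∀ x ∈ Fc, Polynomial.eval₂ (aeR b) x j.1 ≠ 0) ∧
      LocPF (algebraMap F₀ C).fieldRange
        (acl (gn (algebraMap F₀ C).fieldRange fun i : ℕ => y (Sum.inl i)))
        (acl (gn (acl (gn (algebraMap F₀ C).fieldRange fun i : ℕ => y (Sum.inl i)))
          fun i : Fin n => y (Sum.inr (Sum.inl i)))) w P σ b Fc Kc := by
    intro j
    obtain ⟨F, k, _, _, _, _, _, _, _, _, hF, hk, hfree, a, hP, ha⟩ := hcon j.1 j.2
    exact exists_locPF hn hb hq htop hy.1 hF hk hfree hP ha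
  choose σ b Fc Kc h0 hb1 hne hL using hloc
  obtain ⟨Uf, hU⟩ := exists_denseV b Fc (fun Φ hΦ => ⟨(⟨Φ, hΦ⟩ : J), hne _⟩)
  have hw : (fun e : Fin (m + 2) => if e = 1 then w e - ((0 : ℕ) : k₀) * w 0 else w e) = w := by
    funext e
    rw [Nat.cast_zero, zero_mul, sub_zero, ite_self]
  refine core_falsePF (c := 0) hq htop hy hw0 (div_mul_cancel₀ _ hw0).symm key ?_ halg (ei := ei) ?_ Uf
    h0 hb1 hL hU
  · rw [hw]
  · convert hlin using 2 with i
    exact congrFun hw (ei i)

/-- **Block EPF.** -/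
theorem epf : StmtEPF.{u} := by
  intro F₀ k₀ _ _ _ _ N P m w e key hk₀ ht hlin
  classical
  have hne : w (e 0) ≠ 0 := hlin.ne_zero 0
  have hT : Transcendental F₀ (w (e 1) / w (e 0)) := by
    intro h0
    have h1 := (linearIndependent_iff'.1 hlin) {0, 1}
      (fun i => if i = 0 then -⟨w (e 1) / w (e 0), mem_algebraicClosure_iff.2 h0⟩ else 1) (by
        rw [Finset.sum_pair (by decide)]
        simp only [if_true]
        rw [if_neg (by decide), neg_smul, one_smul]
        change -(w (e 1) / w (e 0) * w (e 0)) + w (e 1) = 0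
        rw [div_mul_cancel₀ _ hne]
        ring) 1 (by simp)
    rw [if_neg (by decide)] at h1
    exact one_ne_zero h1
  have hil : e 1 ≠ e 0 := by
    intro h0
    rw [h0, div_self hne] at hT
    exact hT isAlgebraic_one
  obtain ⟨m', rfl⟩ : ∃ m', m = m' + 1 := by
    refine ⟨m - 1, ?_⟩
    have h1 := (e 1).2
    have h3 := (e 0).2
    have h4 : ((e 1 : Fin (m + 1)) : ℕ) ≠ (e 0 : Fin (m + 1)) := fun h => hil (Fin.ext h)
    omega
  obtain ⟨g, hg0, hg1⟩ := exists_perm2 hil
  have hrange : Set.range (w ∘ g) = Set.range w := g.surjective.range_comp w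
  obtain ⟨Φ, hΦ, h1⟩ := thin_norm_of_keyPF (w := w ∘ g) (P := P) (by rw [hrange]; exact key) hk₀ ht
    (ei := fun i => g.symm (e i)) (by
      convert hlin using 2 with i
      change w (g (g.symm (e i))) = _
      rw [Equiv.apply_symm_apply]) (by
    change w (g 0) ≠ 0
    rw [hg0]; exact hne) (by
    change Transcendental F₀ (w (g 1) / w (g 0))
    rw [hg0, hg1]; exact hT)
  refine ⟨_, hΦ.rename (Equiv.sumCongr (Equiv.refl (Fin N)) g), ?_⟩
  intro F k _ _ _ _ _ _ _ _ hF hk hfree a ha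
  have h2 := prm_reindex (algebraMap k₀ k ∘ w) g a
  rw [← h2] at ha
  obtain ⟨x, hx⟩ := h1 F k hF hk hfree _ ha
  refine ⟨x, ?_⟩
  rw [Polynomial.eval₂_map, ← hx]
  congr 1
  refine RingHom.ext fun p => ?_
  change MvPolynomial.aeval a (MvPolynomial.rename _ p) = MvPolynomial.aeval _ p
  rw [MvPolynomial.aeval_rename]
  rfl

end Pool.Agent.FFX
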