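import Pool.Agent.Helper59.FF.KPa

/-!
# Project FF, block EPF: linear independence over the constants
-/

universe u

set_option autoImplicit false

namespace Pool.Agent.FFX

open IntermediateField Polynomial

section gal

variable {k₀ K : Type*} [Field k₀] [Field K] [Algebra k₀ K] [IsGalois k₀ K]

/-- `A` is a subfield of `K` stable under `Gal(K / k₀)`: elements of `k₀` independent over `A ∩ k₀` are independent
over `A`. -/
theorem linInd_gal (A : Subfield K) (hA : ∀ τ : K ≃ₐ[k₀] K, ∀ a ∈ A, τ a ∈ A) {ι : Type*}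
    (w : ι → k₀)
    (hw : ∀ (s : Finset ι) (g : ι → k₀), (∀ i, algebraMap k₀ K (g i) ∈ A) →
      ∑ i ∈ s, g i * w i = 0 → ∀ i ∈ s, g i = 0) :
    ∀ (n : ℕ) (s : Finset ι) (_ : s.card = n) (g : ι → K), (∀ i, g i ∈ A) →
      ∑ i ∈ s, g i * algebraMap k₀ K (w i) = 0 → ∀ i ∈ s, g i = 0 := by
  classical
  intro n
  induction n with
  | zero =>
    intro s hs g _ _ i hi
    rw [Finset.card_eq_zero.1 hs] at hi
    exact absurd hi (Finset.notMem_empty i)
  | succ n ih =>
    intro s hs g hg hsum i₀ hi₀
    by_contra hne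
    let g' : ι → K := fun i => g i / g i₀
    have hg' : ∀ i, g' i ∈ A := fun i => A.div_mem (hg i) (hg i₀)
    have hsum' : ∑ i ∈ s, g' i * algebraMap k₀ K (w i) = 0 := by
      have h1 : ∑ i ∈ s, g' i * algebraMap k₀ K (w i) =
          (∑ i ∈ s, g i * algebraMap k₀ K (w i)) / g i₀ := by
        rw [Finset.sum_div]
        exact Finset.sum_congr rfl fun i _ => by
          change g i / g i₀ * _ = _
          ring
      rw [h1, hsum, zero_div]
    have h1' : g' i₀ = 1 := div_self hne
    have hfix : ∀ τ : K ≃ₐ[k₀] K, ∀ i ∈ s, τ (g' i) = g' i := by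
      intro τ i hi
      have h2 : ∑ i ∈ s, (τ (g' i) - g' i) * algebraMap k₀ K (w i) = 0 := by
        have h3 := congrArg τ hsum'
        rw [map_sum, map_zero] at h3
        have h4 : ∑ i ∈ s, τ (g' i * algebraMap k₀ K (w i)) =
            ∑ i ∈ s, τ (g' i) * algebraMap k₀ K (w i) :=
          Finset.sum_congr rfl fun i _ => by rw [map_mul, AlgEquiv.commutes]
        rw [h4] at h3
        have h5 : ∑ i ∈ s, (τ (g' i) - g' i) * algebraMap k₀ K (w i) =
            ∑ i ∈ s, τ (g' i) * algebraMap k₀ K (w i) - ∑ i ∈ s, g' i * algebraMap k₀ K (w i) := by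
          rw [← Finset.sum_sub_distrib]
          exact Finset.sum_congr rfl fun i _ => by ring
        rw [h5, h3, hsum', sub_zero]
      by_cases hii : i = i₀
      · rw [hii, h1', map_one]
      · have h6 := ih (s.erase i₀) (by rw [Finset.card_erase_of_mem hi₀, hs]; rfl)
          (fun i => τ (g' i) - g' i) (fun i => A.sub_mem (hA τ _ (hg' i)) (hg' i)) (by
            rw [← Finset.add_sum_erase s _ hi₀, h1', map_one, sub_self, zero_mul, zero_add] at h2
            exact h2) i (Finset.mem_erase.2 ⟨hii, hi⟩)
        exact sub_eq_zero.1 h6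
    have hk : ∀ i ∈ s, ∃ x : k₀, algebraMap k₀ K x = g' i := fun i hi =>
      (InfiniteGalois.mem_range_algebraMap_iff_fixed (k := k₀) (K := K) (g' i)).2
        fun τ => hfix τ i hi
    let f : ι → k₀ := fun i => if hi : i ∈ s then (hk i hi).choose else 0
    have hf : ∀ i ∈ s, algebraMap k₀ K (f i) = g' i := by
      intro i hi
      have : f i = (hk i hi).choose := dif_pos hi
      rw [this]
      exact (hk i hi).choose_spec
    have hf0 : ∑ i ∈ s, f i * w i = 0 := by
      apply (algebraMap k₀ K).injective
      rw [map_sum, map_zero, ← hsum']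
      exact Finset.sum_congr rfl fun i hi => by rw [map_mul, hf i hi]
    have hfA : ∀ i, algebraMap k₀ K (f i) ∈ A := by
      intro i
      by_cases hi : i ∈ s
      · rw [hf i hi]
        exact hg' i
      · have : f i = 0 := dif_neg hi
        rw [this, map_zero]
        exact A.zero_mem
    have h7 := hw s f hfA hf0 i₀ hi₀
    have h8 := hf i₀ hi₀
    rw [h7, map_zero, h1'] at h8
    exact zero_ne_one h8

end gal

/-- Elements of `k₀` independent over the relative algebraic closure of `F₀` are independent over the algebraic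
closure of `F₀`. -/
theorem linInd_acl {F₀ k₀ C : Type u} [Field F₀] [CharZero F₀] [Field k₀] [Algebra F₀ k₀] [Field C]
    [Algebra F₀ C] [IsAlgClosed C] (σ : k₀ →+* C)
    (hσ : ∀ c : F₀, σ (algebraMap F₀ k₀ c) = algebraMap F₀ C c) {ι : Type*} {w : ι → k₀}
    (hw : LinearIndependent (algebraicClosure F₀ k₀) w) :
    LinearIndependent (algebraicClosure F₀ C) fun i => σ (w i) := by
  classical
  let _ : Algebra k₀ C := σ.toAlgebra
  have hst : IsScalarTower F₀ k₀ C := IsScalarTower.of_algebraMap_eq fun c => (hσ c).symm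
  have hk0 : CharZero k₀ := charZero_of_injective_algebraMap (algebraMap F₀ k₀).injective
  let K : IntermediateField k₀ C := algebraicClosure k₀ C
  have hK : IsAlgClosure k₀ K := algebraicClosure.isAlgClosure k₀ C
  have hn : Normal k₀ K := IsAlgClosure.normal k₀ K
  have hg : IsGalois k₀ K := ⟨⟩
  -- the algebraic closure of `F₀` in `K`
  let A : Subfield K := ((algebraicClosure F₀ C).toSubfield).comap K.val.toRingHom
  have hAm : ∀ a : K, a ∈ A ↔ IsAlgebraic F₀ (a : C) := fun a => mem_algebraicClosure_iff
  have hAK : ∀ c : C, IsAlgebraic F₀ c → c ∈ K := fun c hc =>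
    mem_algebraicClosure_iff.2 (hc.tower_top k₀)
  have hA : ∀ τ : K ≃ₐ[k₀] K, ∀ a ∈ A, τ a ∈ A := by
    intro τ a ha
    rw [hAm] at ha ⊢
    have h1 : IsAlgebraic F₀ a := (isAlgebraic_algHom_iff
      (K.val.restrictScalars F₀) K.val.injective).1 ha
    exact (h1.algHom (τ.toAlgHom.restrictScalars F₀)).algHom (K.val.restrictScalars F₀)
  have key := linInd_gal A hA w (by
    intro s g hg hs
    have h1 : ∀ i, IsAlgebraic F₀ (g i) := fun i => by
      have h2 := (hAm _).1 (hg i)
      exact (isAlgebraic_algebraMap_iff (A := C) (algebraMap k₀ C).injective).1 h2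
    rw [linearIndependent_iff'] at hw
    intro i hi
    have h3 := hw s (fun i => ⟨g i, mem_algebraicClosure_iff.2 (h1 i)⟩) hs i hi
    exact congrArg Subtype.val h3)
  rw [linearIndependent_iff']
  intro s g hs i hi
  have h1 := key s.card s rfl (fun i => ⟨(g i : C), hAK _ (mem_algebraicClosure_iff.1 (g i).2)⟩)
    (fun i => (hAm _).2 (mem_algebraicClosure_iff.1 (g i).2)) (by
      apply Subtype.ext
      refine Eq.trans ?_ hs
      have h2 : ((∑ i ∈ s, (⟨(g i : C), hAK _ (mem_algebraicClosure_iff.1 (g i).2)⟩ : K) *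
          algebraMap k₀ K (w i) : K) : C) = ∑ i ∈ s, (g i : C) * σ (w i) := by
        rw [← IntermediateField.coe_val, map_sum]
        exact Finset.sum_congr rfl fun i _ => rfl
      rw [h2]
      exact Finset.sum_congr rfl fun i _ => rfl) i hi
  apply Subtype.ext
  exact congrArg (fun z : K => (z : C)) h1

/-- Elements algebraic over `F₀(t)` independent over the algebraic closure of `F₀` are independent over every
algebraically closed field over which `t` is transcendental. -/
theorem linInd_big {F₀ C : Type u} [Field F₀] [CharZero F₀] [Field C] [Algebra F₀ C] [IsAlgClosed C]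
    {Ω : Subfield C} (hF : ∀ c : F₀, algebraMap F₀ C c ∈ Ω) (hΩ : ∀ z : C, IsAlgebraic Ω z → z ∈ Ω)
    {t : C} (ht : Transcendental Ω t) {ι : Type*} {x : ι → C}
    (hx : ∀ i, IsAlgebraic (adjoin F₀ {t}) (x i))
    (hlin : LinearIndependent (algebraicClosure F₀ C) x) : LinearIndependent Ω x := by
  classical
  let A : IntermediateField F₀ C := algebraicClosure F₀ C
  have hAc : IsAlgClosure F₀ A := algebraicClosure.isAlgClosure F₀ C
  have hAcl : IsAlgClosed A := hAc.isAlgClosed
  have hA0 : CharZero A := charZero_of_injective_algebraMap (algebraMap F₀ A).injective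
  have hAΩ : ∀ a : C, a ∈ A → a ∈ Ω := by
    intro a ha
    refine hΩ a ?_
    obtain ⟨p, hp, hpa⟩ := mem_algebraicClosure_iff.1 ha
    let φ : F₀ →+* Ω := (algebraMap F₀ C).codRestrict Ω.toSubring hF
    refine ⟨p.map φ, (Polynomial.map_ne_zero_iff φ.injective).2 hp, ?_⟩
    rw [Polynomial.aeval_def, Polynomial.eval₂_map]
    exact hpa
  let _ : Algebra A Ω := (A.toSubfield.subtype.codRestrict Ω.toSubring fun a => hAΩ a a.2).toAlgebra
  have hst : IsScalarTower A Ω C := IsScalarTower.of_algebraMap_eq fun _ => rfl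
  let At : IntermediateField A C := adjoin A {t}
  let L : IntermediateField At C := algebraicClosure At C
  have htL : t ∈ L := L.algebraMap_mem ⟨t, mem_adjoin_simple_self A t⟩
  let xL : L := ⟨t, htL⟩
  have hval : ∀ a : A, ((algebraMap A L a : L) : C) = algebraMap A C a := fun _ => rfl
  have hj : ∀ a : At, algebraMap At L a ∈ adjoin A {xL} := by
    intro a
    have h1 : At ≤ (adjoin A {xL}).map (L.val.restrictScalars A) := by
      rw [adjoin_simple_le_iff]
      exact ⟨xL, mem_adjoin_simple_self A xL, rfl⟩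
    obtain ⟨b, hb, hba⟩ := h1 a.2
    have h2 : algebraMap At L a = b := Subtype.ext hba.symm
    rw [h2]
    exact hb
  have halg : Algebra.IsAlgebraic (adjoin A {xL}) L := by
    refine ⟨fun z => ?_⟩
    obtain ⟨p, hp, hpz⟩ := mem_algebraicClosure_iff.1 z.2
    let j : At →+* adjoin A {xL} := (algebraMap At L).codRestrict (adjoin A {xL}).toSubring hj
    refine ⟨p.map j, (Polynomial.map_ne_zero_iff j.injective).2 hp, ?_⟩
    rw [Polynomial.aeval_def, Polynomial.eval₂_map]
    apply Subtype.ext
    have h1 : (algebraMap (adjoin A {xL}) L).comp j = algebraMap At L := rfl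
    rw [h1]
    change L.val (Polynomial.eval₂ (algebraMap At L) z p) = 0
    rw [← Polynomial.aeval_def]
    have h2 := Polynomial.aeval_algHom_apply L.val z p
    exact h2.symm.trans hpz
  have hxL : ∀ i, x i ∈ L := by
    intro i
    refine mem_algebraicClosure_iff.2 ?_
    obtain ⟨p, hp, hpx⟩ := hx i
    have h1 : ∀ a : adjoin F₀ {t}, (a : C) ∈ At := by
      intro a
      have h2 : adjoin F₀ {t} ≤ At.restrictScalars F₀ := by
        rw [adjoin_simple_le_iff]
        exact mem_adjoin_simple_self A t
      exact h2 a.2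
    let φ : adjoin F₀ {t} →+* At := (adjoin F₀ {t}).toSubfield.subtype.codRestrict
      At.toSubring h1
    refine ⟨p.map φ, (Polynomial.map_ne_zero_iff φ.injective).2 hp, ?_⟩
    rw [Polynomial.aeval_def, Polynomial.eval₂_map]
    exact hpx
  let b := Module.Basis.ofVectorSpace A Ω
  have hstL : IsScalarTower A L C := IsScalarTower.of_algebraMap_eq fun _ => rfl
  have h1 : LinearIndependent L (fun i => algebraMap Ω C (b i)) :=
    _root_.SC.linearIndependent_of_transcendental (E := A) (A := L) (U := Ω) (L := C)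
      (x := xL) ht halg b.linearIndependent
  rw [linearIndependent_iff']
  intro s g hs i hi
  -- expand in the basis
  let S := s.biUnion fun i => (b.repr (g i)).support
  have hexp : ∀ i ∈ s, ∑ j ∈ S, algebraMap A C (b.repr (g i) j) * algebraMap Ω C (b j) =
      algebraMap Ω C (g i) := by
    intro i hi
    have h2 := b.linearCombination_repr (g i)
    rw [Finsupp.linearCombination_apply, Finsupp.sum_of_support_subset (s := S) _
      (Finset.subset_biUnion_of_mem (fun i => (b.repr (g i)).support) hi)
      (fun j a => a • b j) (fun j _ => zero_smul _ _)] at h2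
    have h3 := congrArg (algebraMap Ω C) h2
    rw [map_sum] at h3
    rw [← h3]
    refine Finset.sum_congr rfl fun j _ => ?_
    rw [Algebra.smul_def, map_mul, ← IsScalarTower.algebraMap_apply A Ω C]
  let c : _ → L := fun j => ∑ i ∈ s, algebraMap A L (b.repr (g i) j) * ⟨x i, hxL i⟩
  have hc : ∀ j, ((c j : L) : C) = ∑ i ∈ s, algebraMap A C (b.repr (g i) j) * x i := by
    intro j
    change L.val (∑ i ∈ s, algebraMap A L (b.repr (g i) j) * ⟨x i, hxL i⟩) = _
    rw [map_sum]
    exact Finset.sum_congr rfl fun i _ => rfl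
  have h4 : ∑ j ∈ S, c j • algebraMap Ω C (b j) = 0 := by
    have h5 : ∑ j ∈ S, c j • algebraMap Ω C (b j) = ∑ i ∈ s, g i • x i := by
      have h6 : ∀ j, c j • algebraMap Ω C (b j) =
          ∑ i ∈ s, algebraMap A C (b.repr (g i) j) * algebraMap Ω C (b j) * x i := by
        intro j
        rw [Algebra.smul_def]
        change ((c j : L) : C) * _ = _
        rw [hc, Finset.sum_mul]
        exact Finset.sum_congr rfl fun i _ => by ring
      rw [Finset.sum_congr rfl fun j _ => h6 j, Finset.sum_comm]
      refine Finset.sum_congr rfl fun i hi => ?_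
      rw [← Finset.sum_mul, hexp i hi, Algebra.smul_def]
    rw [h5, hs]
  have h7 : ∀ j ∈ S, c j = 0 := (linearIndependent_iff'.1 h1) S c h4
  have h8 : b.repr (g i) = 0 := by
    ext j
    by_cases hj : j ∈ S
    · have h9 : ∑ i ∈ s, (b.repr (g i) j) • x i = 0 := by
        have h10 := hc j
        rw [h7 j hj] at h10
        refine Eq.trans (Finset.sum_congr rfl fun i _ => ?_) h10.symm
        rw [Algebra.smul_def]
      have h11 := (linearIndependent_iff'.1 hlin) s (fun i => b.repr (g i) j) h9 i hi
      rw [h11]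
      rfl
    · have h12 : j ∉ (b.repr (g i)).support := fun h => hj (Finset.mem_biUnion.2 ⟨i, hi, h⟩)
      rw [Finsupp.notMem_support_iff.1 h12]
      rfl
  exact b.repr.injective (by rw [h8, map_zero])

end Pool.Agent.FFX
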