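import Mathlib

/-!
# Project FF: the statement of the abstract theorem (pure group theory)
-/

set_option autoImplicit false

namespace Pool.Agent.FFS

/-- BLOCK AT (helper81).  `H ≤ A` a finite `ℓ`-group, simply transitive on `Ω ⊆ X`; `ρ : G → A` normalises `H` and
preserves `Ω`; `G'` normal in `G`, its elements act on `H` with order a power of `ℓ`; `D ⊆ G` fixes `ω₀`, `G = G' D`; a
subgroup `B` of `G'` with `G' / B` abelian of exponent `ℓ`, which contains the elements of `G'` acting trivially on `Ω` and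
all conjugates `g d g⁻¹ ∈ G'`, is `G'`.  Then `G` fixes `ω₀`.

Proof.  Descending `K ≤ H`, normalised by `ρ`, such that `ρ g ω₀ ∈ K ω₀` for all `g` (start: `K = H`, end: `K = 1`).  If
`K ≠ 1` let `K' = {x ∈ K | χ x = 1 for all homs χ : K → ℤ/ℓ invariant under G'}`: `ρ`-stable (`G'` is normal), contains the
`ℓ`-th powers, the commutators of `K` and all `x⁻¹ (g x g⁻¹)`, `g ∈ G'`; `K' ≠ K` since the `ℓ`-group `Hom (K, ℤ/ℓ) ≠ 0` has a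
nontrivial element fixed by `G'` (`PL13.exists_fixed_order` in Helper13/PL/Grp.lean).  Let `b g ∈ K`, `ρ g ω₀ = b g ω₀`
(unique): `b (g h) = (ρ g (b h) (ρ g)⁻¹) (b g)`, so `g ↦ b g mod K'` is a homomorphism on `G'`, `b d = 1` for `d ∈ D`,
`b (g d g⁻¹) = (g d g⁻¹ y (g d g⁻¹)⁻¹) y⁻¹ ∈ K'` with `y = ρ g (b g⁻¹) (ρ g)⁻¹` if `g d g⁻¹ ∈ G'`; the hypothesis for
`B = {g ∈ G' | b g ∈ K'}` gives `b G' ⊆ K'`, and `b (h d) = (h b(d) h⁻¹) (b h) = b h`. -/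
def StmtAT : Prop :=
  ∀ (G A X : Type) [Group G] [Group A] [MulAction A X] (ℓ : ℕ), ℓ.Prime →
    ∀ (ρ : G →* A) (H : Subgroup A), Finite H → IsPGroup ℓ H →
    (∀ g : G, ∀ x ∈ H, ρ g * x * (ρ g)⁻¹ ∈ H) →
    ∀ Ω : Set X, (∀ g : G, ∀ ω ∈ Ω, ρ g • ω ∈ Ω) → (∀ x ∈ H, ∀ ω ∈ Ω, x • ω ∈ Ω) →
    (∀ x ∈ H, ∀ ω ∈ Ω, x • ω = ω → x = 1) →
    (∀ ω ∈ Ω, ∀ ω' ∈ Ω, ∃ x ∈ H, x • ω = ω') →
    ∀ G' : Subgroup G, G'.Normal →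
    (∀ g ∈ G', ∃ n : ℕ, ∀ x ∈ H, (ρ g) ^ ℓ ^ n * x = x * (ρ g) ^ ℓ ^ n) →
    ∀ (D : Set G) (ω₀ : X), ω₀ ∈ Ω → (∀ d ∈ D, ρ d • ω₀ = ω₀) →
    (∀ g : G, ∃ h ∈ G', ∃ d ∈ D, g = h * d) →
    (∀ B : Subgroup G, B ≤ G' → (∀ a ∈ G', ∀ b ∈ G', a * b * a⁻¹ * b⁻¹ ∈ B) → (∀ a ∈ G', a ^ ℓ ∈ B) →
      (∀ a ∈ G', (∀ ω ∈ Ω, ρ a • ω = ω) → a ∈ B) →
      (∀ g : G, ∀ d ∈ D, g * d * g⁻¹ ∈ G' → g * d * g⁻¹ ∈ B) → B = G') →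
    ∀ g : G, ρ g • ω₀ = ω₀

end Pool.Agent.FFS
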