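import Pool.Agent.Helper13.FF.EPFa
import Pool.Agent.Helper13.FF.Lin

/-!
# Project FF, block EPF: the contradiction

As `Helper54.SE.EP1`.
-/

universe u v w

namespace Pool.Agent.FFX

open IntermediateField Pool.Agent.OPN Pool.Agent.Helper37.UL UL Pool.Agent.OPG Pool.Agent.UT Pool.Agent.SE

/-- **The contradiction.** -/
theorem core_falsePF {F₀ k₀ : Type u} [Field F₀] [CharZero F₀] [Field k₀] [Algebra F₀ k₀] {n : ℕ}
    {s : Fin n → k₀} {T q : k₀} {c : ℕ} {m : ℕ} {w : Fin (m + 2) → k₀}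
    (hq : IsAlgebraic (ad (gn (algebraMap F₀ k₀).fieldRange s) {T}) q)
    (htop : ad (gn (algebraMap F₀ k₀).fieldRange s) {T, q} = ⊤)
    {C : Type u} [Field C] [Algebra F₀ C] [IsAlgClosed C] {y : ℕ ⊕ (Fin n ⊕ Unit) → C}
    (hy : IsTranscendenceBasis F₀ y) {N : ℕ}
    (hw0 : w 0 ≠ 0) (hw1 : w 1 = T * w 0)
    {P : ∀ (k' : Type u) [Field k'], Subfield k' → (k₀ →+* k') → (Option (Fin N) → k') → Prop} {R : Set k₀} (key : KeyF k₀ R P)
    (hR : Set.range (fun e : Fin (m + 2) => if e = 1 then w e - c * w 0 else w e) = R)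
    (halg : ∀ z : k₀, IsAlgebraic (ad (algebraMap F₀ k₀).fieldRange {T}) z) {ei : Fin 4 → Fin (m + 2)}
    (hlin : LinearIndependent (algebraicClosure F₀ k₀) fun i => (if ei i = 1 then w (ei i) - c * w 0 else w (ei i)))
    {J : Type u} (Uf : Ultrafilter J) {σ : J → k₀ →+* C} {b : J → Fin N ⊕ Fin (m + 2) → C}
    {Fc Kc : J → Subfield C} (hσ0 : ∀ j (c : F₀), σ j (algebraMap F₀ k₀ c) = algebraMap F₀ C c)
    (hσb : ∀ j i, σ j (Sum.elim s (fun _ : Unit => T) i) = y (Sum.inr i))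
    (hloc : ∀ j, LocPF (algebraMap F₀ C).fieldRange
        (acl (gn (algebraMap F₀ C).fieldRange fun i : ℕ => y (Sum.inl i)))
        (acl (gn (acl (gn (algebraMap F₀ C).fieldRange fun i : ℕ => y (Sum.inl i)))
          fun i : Fin n => y (Sum.inr (Sum.inl i)))) w P (σ j) (b j) (Fc j) (Kc j))
    (hU : ∀ Φ : Polynomial (MvPolynomial (Fin N ⊕ Fin (m + 2)) F₀), NoRoot Φ →
      ∀ᶠ j in (Uf : Filter J), ∀ x ∈ Fc j, Polynomial.eval₂ (aeR (b j)) x Φ ≠ 0) : False := by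
  classical
  set F₀' : Subfield k₀ := (algebraMap F₀ k₀).fieldRange with hF₀'
  set FC : Subfield C := (algebraMap F₀ C).fieldRange with hFC
  set Ω₀ : Subfield C := acl (gn FC fun i : ℕ => y (Sum.inl i)) with hΩ₀
  set ys : Fin n → C := fun i => y (Sum.inr (Sum.inl i)) with hys
  set FB : Subfield C := acl (gn Ω₀ ys) with hFB
  set TC : C := y (Sum.inr (Sum.inr ())) with hTC
  have hC0 : CharZero C := charZero_of_injective_algebraMap (algebraMap F₀ C).injective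
  have hk0 : CharZero k₀ := charZero_of_injective_algebraMap (algebraMap F₀ k₀).injective
  have hσs : ∀ j i, σ j (s i) = ys i := fun j i => hσb j (Sum.inl i)
  have hσT : ∀ j, σ j T = TC := fun j => hσb j (Sum.inr ())
  -- the embeddings agree on the small field
  set A : Subfield k₀ := gn F₀' s with hA
  have hagree : ∀ i j, ∀ x ∈ ad A {T}, σ i x = σ j x := by
    intro i j x hx
    have h1 : ad A {T} ≤ (σ i).eqLocusField (σ j) := by
      refine ad_le (gn_le ?_ ?_) ?_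
      · rintro _ ⟨c, rfl⟩
        exact (hσ0 i c).trans (hσ0 j c).symm
      · exact fun l => (hσs i l).trans (hσs j l).symm
      · intro z hz
        rw [Set.mem_singleton_iff.1 hz]
        exact (hσT i).trans (hσT j).symm
    exact h1 hx
  have htop2 : ad (ad A {T}) {q} = ⊤ := by
    rw [ad_ad, Set.singleton_union]
    exact htop
  obtain ⟨j₁, hj₁⟩ := pigeon Uf hq htop2 hagree
  set σ₀ : k₀ →+* C := σ j₁ with hσ₀
  let ρ : J → J := fun j => if σ j = σ₀ then j else j₁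
  have hρσ : ∀ j, σ (ρ j) = σ₀ := by
    intro j
    by_cases hj : σ j = σ₀
    · have h1 : ρ j = j := if_pos hj
      rw [h1, hj]
    · have h1 : ρ j = j₁ := if_neg hj
      rw [h1]
  have hρ : ∀ᶠ j in (Uf : Filter J), ρ j = j := by
    filter_upwards [hj₁] with j hj
    exact if_pos hj
  -- independence in `C`
  have hyC : AlgebraicIndependent FC y := ind_range.2 hy.1
  have hy1 : AlgebraicIndependent Ω₀ (fun i => y (Sum.inr i)) := by
    have h1 : AlgebraicIndependent FC (Sum.elim (fun i => y (Sum.inr i)) fun i => y (Sum.inl i)) := by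
      have h2 := hyC.comp Sum.swap Sum.swap_leftInverse.injective
      convert h2 using 1
      funext i
      rcases i with i | i <;> rfl
    exact indep_acl (indep_sum_iff.1 h1).2
  have hy2 : AlgebraicIndependent Ω₀ (Sum.elim (fun i => y (Sum.inr (Sum.inr i))) ys) := by
    have h2 := hy1.comp Sum.swap Sum.swap_leftInverse.injective
    convert h2 using 1
    funext i
    rcases i with i | i <;> rfl
  obtain ⟨hysΩ₀, hy3⟩ := indep_sum_iff.1 hy2
  have hTFB : Transcendental FB TC := by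
    have hy4 : AlgebraicIndependent FB (fun i => y (Sum.inr (Sum.inr i))) := indep_acl hy3
    exact indep_one.1 hy4
  -- the fields
  have hFCΩ₀ : FC ≤ Ω₀ := le_gn.trans le_acl
  have hΩ₀FB : Ω₀ ≤ FB := le_gn.trans le_acl
  have hyΩ₀ : ∀ i : ℕ, y (Sum.inl i) ∈ Ω₀ := fun i =>
    le_acl (mem_gn (x := fun i : ℕ => y (Sum.inl i)) i)
  have hysFB : ∀ i, ys i ∈ FB := fun i => le_acl (mem_gn (x := ys) i)
  clear_value FB Ω₀ FC
  have hcC : ((c : ℕ) : C) ∈ FB := natCast_mem FB c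
  set Tc : C := TC - c with hTc
  have hTcFB : Transcendental FB Tc := by
    have h1 := tr_add hTFB (FB.neg_mem hcC)
    rwa [← sub_eq_add_neg] at h1
  set qC : C := σ₀ q with hqC
  obtain ⟨kB, hkB⟩ : ∃ kB : Subfield C, kB = ad FB {Tc, qC} := ⟨_, rfl⟩
  have hFBkB : FB ≤ kB := by
    rw [hkB]
    exact le_ad
  have hTk : Tc ∈ kB := by
    rw [hkB]
    exact mem_ad (Or.inl rfl)
  have hqk : qC ∈ kB := by
    rw [hkB]
    exact mem_ad (Or.inr rfl)
  have hkBle : ∀ M : Subfield C, FB ≤ M → Tc ∈ M → qC ∈ M → kB ≤ M := by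
    intro M h1 h2 h3
    rw [hkB]
    refine ad_le h1 ?_
    rintro z (hz | hz)
    · rw [hz]
      exact h2
    · rw [Set.mem_singleton_iff.1 hz]
      exact h3
  clear_value Tc qC
  let _ : Algebra FB kB := (Subfield.inclusion hFBkB).toAlgebra
  have hst : IsScalarTower FB kB C := IsScalarTower.of_algebraMap_eq fun _ => rfl
  have hTCk : TC ∈ kB := by
    have h1 : TC = Tc + c := by rw [hTc, sub_add_cancel]
    rw [h1]
    exact kB.add_mem hTk (hFBkB hcC)
  have hcl : IsAlgClosure kB C := by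
    refine ⟨inferInstance, ⟨fun x => ?_⟩⟩
    have h1 : IsAlgebraic (adjoin F₀ (Set.range y)) x := hy.isAlgebraic_field.isAlgebraic x
    have h2 : (adjoin F₀ (Set.range y)).toSubfield ≤ kB := by
      rw [adjoin_sub]
      refine ad_le (hFC ▸ hFCΩ₀.trans (hΩ₀FB.trans hFBkB)) ?_
      rintro _ ⟨i | (i | i), rfl⟩
      · exact hFBkB (hΩ₀FB (hyΩ₀ i))
      · exact hFBkB (hysFB i)
      · exact hTCk
    exact isAlgebraic_mono h2 h1
  let Tk : kB := ⟨Tc, hTk⟩
  let qk : kB := ⟨qC, hqk⟩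
  have hFBr : (algebraMap FB C).fieldRange = FB := by
    ext z
    constructor
    · rintro ⟨c, rfl⟩
      exact c.2
    · intro hz
      exact ⟨⟨z, hz⟩, rfl⟩
  have hTtr : Transcendental FB Tk := by
    intro h1
    apply hTcFB
    exact h1.algebraMap (A := C)
  have htopk : adjoin FB {Tk, qk} = ⊤ := by
    rw [eq_top_iff]
    rintro ⟨x, hx⟩ -
    have h1 : kB ≤ (adjoin FB {Tk, qk}).toSubfield.map kB.subtype :=
      hkBle _ (fun z hz => ⟨⟨z, hFBkB hz⟩, (adjoin FB {Tk, qk}).algebraMap_mem ⟨z, hz⟩, rfl⟩)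
        ⟨Tk, subset_adjoin FB _ (Or.inl rfl), rfl⟩ ⟨qk, subset_adjoin FB _ (Or.inr rfl), rfl⟩
    obtain ⟨z, hz, hzx⟩ := h1 hx
    have h2 : z = ⟨x, hx⟩ := Subtype.ext hzx
    rw [← h2]
    exact hz
  -- the small fields
  obtain ⟨Fs, hFs⟩ : ∃ Fs : Subfield C, Fs = gn FC ys := ⟨_, rfl⟩
  have hFCFs : FC ≤ Fs := by
    rw [hFs]
    exact le_gn
  have hysFs : ∀ i, ys i ∈ Fs := by
    intro i
    rw [hFs]
    exact mem_gn i
  have hFsle : ∀ M : Subfield C, FC ≤ M → (∀ i, ys i ∈ M) → Fs ≤ M := by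
    intro M h1 h2
    rw [hFs]
    exact gn_le h1 h2
  have hFsFB : Fs ≤ FB := hFsle _ (hFCΩ₀.trans hΩ₀FB) hysFB
  have hσ₀A : ∀ x ∈ A, σ₀ x ∈ Fs := by
    intro x hx
    have h1 : A ≤ Fs.comap σ₀ := by
      refine gn_le ?_ ?_
      · rintro _ ⟨c, rfl⟩
        change σ₀ (algebraMap F₀ k₀ c) ∈ Fs
        rw [hσ₀, hσ0]
        exact hFCFs (hFC ▸ ⟨c, rfl⟩)
      · intro i
        change σ₀ (s i) ∈ Fs
        rw [hσ₀, hσs]
        exact hysFs i
    exact h1 hx
  have hTcs : ∀ M : Subfield C, Fs ≤ M → Tc ∈ M → TC ∈ M := by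
    intro M h1 h2
    have h3 : TC = Tc + c := by rw [hTc, sub_add_cancel]
    rw [h3]
    exact M.add_mem h2 (natCast_mem M c)
  have hσ₀k : ∀ x, σ₀ x ∈ Subfield.closure ((Fs : Set C) ∪ {Tc, qC}) := by
    intro x
    have h1 : ad A {T, q} ≤ (ad Fs {Tc, qC}).comap σ₀ := by
      refine ad_le (fun z hz => le_ad (hσ₀A z hz)) ?_
      rintro z (hz | hz)
      · rw [hz]
        change σ₀ T ∈ ad Fs {Tc, qC}
        rw [hσ₀, hσT]
        exact hTcs _ le_ad (mem_ad (Or.inl rfl))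
      · rw [Set.mem_singleton_iff.1 hz]
        change σ₀ q ∈ ad Fs {Tc, qC}
        rw [← hqC]
        exact mem_ad (Or.inr rfl)
    rw [htop] at h1
    exact h1 (Subfield.mem_top x)
  have hclk : Subfield.closure ((Fs : Set C) ∪ {Tc, qC}) ≤ kB := by
    rw [hkB]
    exact ad_mono hFsFB le_rfl
  let ι : k₀ →+* kB := σ₀.codRestrict kB.toSubring fun x => hclk (hσ₀k x)
  have hqs : IsAlgebraic (gen Fs ![Tc]) qC := by
    rw [gen_one, hqC]
    refine alg_map' σ₀ (fun x hx => ?_) hq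
    have h1 : ad A {T} ≤ (ad Fs {Tc}).comap σ₀ := by
      refine ad_le (fun z hz => le_ad (hσ₀A z hz)) ?_
      intro z hz
      rw [Set.mem_singleton_iff.1 hz]
      change σ₀ T ∈ ad Fs {Tc}
      rw [hσ₀, hσT]
      exact hTcs _ le_ad mem_adE
    exact h1 hx
  have hAmap : A.map σ₀ = Fs := by
    apply le_antisymm
    · rintro _ ⟨x, hx, rfl⟩
      exact hσ₀A x hx
    · refine hFsle _ ?_ ?_
      · intro z hz
        rw [hFC] at hz
        obtain ⟨c, rfl⟩ := hz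
        refine ⟨algebraMap F₀ k₀ c, le_gn ⟨c, rfl⟩, ?_⟩
        rw [hσ₀]
        exact hσ0 _ c
      · intro i
        refine ⟨s i, mem_gn i, ?_⟩
        rw [hσ₀]
        exact hσs _ i
  have hσTc : σ₀ (T - c) = Tc := by rw [map_sub, map_natCast, hσ₀, hσT, hTc]
  -- the ultrapower
  obtain ⟨S, _, π, h⟩ := exists_up.{u, u} Uf C
  let b' : J → Fin N ⊕ Fin (m + 2) → C := fun j => b (ρ j)
  let Fc' : J → Subfield C := fun j => Fc (ρ j)
  have hFCc : ∀ j, FC ≤ Fc' j := fun j => (hloc (ρ j)).1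
  have hFcΩ₀ : ∀ j, Fc' j ≤ Ω₀ := fun j => (hloc (ρ j)).2.1
  have hbFc : ∀ j p, b' j p ∈ Fc' j := fun j p => (hloc (ρ j)).2.2.1 p
  have hb' : ∀ j p, b' j p ∈ Ω₀ := fun j p => hFcΩ₀ j (hbFc j p)
  have hU' : ∀ Φ : Polynomial (MvPolynomial (Fin N ⊕ Fin (m + 2)) F₀), NoRoot Φ →
      ∀ᶠ j in (Uf : Filter J), ∀ x ∈ Fc' j, Polynomial.eval₂ (aeR (b' j)) x Φ ≠ 0 := by
    intro Φ hΦ
    filter_upwards [hU Φ hΦ, hρ] with j h1 h2
    change ∀ x ∈ Fc (ρ j), Polynomial.eval₂ (aeR (b (ρ j))) x Φ ≠ 0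
    rw [h2]
    exact h1
  have hU2 : ∀ Ψ : MvPolynomial (Fin N ⊕ Fin (m + 2)) F₀, Ψ ≠ 0 →
      ∀ᶠ j in (Uf : Filter J), MvPolynomial.aeval (b' j) Ψ ≠ 0 := by
    intro Ψ hΨ
    filter_upwards [hU' (Polynomial.C Ψ) (NoRoot.C hΨ)] with j h1
    have h2 := h1 0 (Fc' j).zero_mem
    rw [Polynomial.eval₂_C] at h2
    exact h2
  let a' : Fin N ⊕ Fin (m + 2) → S := fun p => π fun j => b' j p
  have ha' : AlgebraicIndependent (Fs.map (UP.cst π)) a' := by
    rw [hFs, hFC]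
    exact gen_ind h (hFC ▸ hFCΩ₀) hysΩ₀ hb' hU2
  have hvm : ∀ j, b' j (Sum.inr 0) + c * b' j (Sum.inr 1) ∈ FB := fun j =>
    FB.add_mem (hΩ₀FB (hb' j _)) (FB.mul_mem hcC (hΩ₀FB (hb' j _)))
  let vv : J → Fin N ⊕ Fin (m + 2) → FB := fun j =>
    Sum.elim (fun i => (⟨b' j (Sum.inl i), hΩ₀FB (hb' j _)⟩ : FB))
      (fun e => Fin.cases (⟨_, hvm j⟩ : FB)
        (fun e => (⟨b' j (Sum.inr e.succ), hΩ₀FB (hb' j _)⟩ : FB)) e)
  have hvvq : ∀ j i, ((vv j (Sum.inl i) : FB) : C) = b' j (Sum.inl i) := fun _ _ => rfl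
  have hvv0 : ∀ j, ((vv j (Sum.inr 0) : FB) : C) = b' j (Sum.inr 0) + c * b' j (Sum.inr 1) :=
    fun _ => rfl
  have hvv1 : ∀ j (e : Fin (m + 1)), ((vv j (Sum.inr e.succ) : FB) : C) =
      b' j (Sum.inr e.succ) := fun _ _ => rfl
  obtain ⟨x', hx'⟩ : ∃ x' : Fin N ⊕ Fin (m + 2) → S, x' = xg π fun j i => algebraMap FB C (vv j i) :=
    ⟨_, rfl⟩
  have hxq : ∀ i, x' (Sum.inl i) = a' (Sum.inl i) := by
    intro i
    rw [hx']
    rfl
  have hx0 : x' (Sum.inr 0) = a' (Sum.inr 0) + UP.cst π c * a' (Sum.inr 1) := by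
    rw [hx']
    change (π fun j => ((vv j (Sum.inr 0) : FB) : C)) = π _ + (π fun _ => (c : C)) * π _
    rw [← map_mul, ← map_add]
    rfl
  have hx1 : ∀ e : Fin (m + 1), x' (Sum.inr e.succ) = a' (Sum.inr e.succ) := by
    intro e
    rw [hx']
    rfl
  have hcS : UP.cst π (c : C) ∈ FC.map (UP.cst π) := ⟨_, natCast_mem FC c, rfl⟩
  have hcS' : UP.cst π (c : C) ∈ Fs.map (UP.cst π) := ⟨_, natCast_mem Fs c, rfl⟩
  have hxind : AlgebraicIndependent (Fs.map (UP.cst π)) x' := pencil_indP ha' hcS' hxq hx0 hx1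
  let Fv : J → Subfield C := fun j => gn (Fc' j) ys
  have hFsv : ∀ j, Fs ≤ Fv j := by
    intro j
    rw [hFs]
    exact gn_mono (hFCc j)
  have hFvB : ∀ j, Fv j ≤ FB := fun j => gn_le ((hFcΩ₀ j).trans hΩ₀FB) hysFB
  have hvFv : ∀ j i, algebraMap FB C (vv j i) ∈ Fv j := by
    rintro j (i | e)
    · exact le_gn (hbFc j _)
    rcases Fin.eq_zero_or_eq_succ e with rfl | ⟨e, rfl⟩
    · exact (Fv j).add_mem (le_gn (hbFc j _)) ((Fv j).mul_mem (natCast_mem _ c) (le_gn (hbFc j _)))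
    · exact le_gn (hbFc j _)
  have hwr : ∀ z ∈ h.fsub Fv, IsAlgebraic (gn (Fs.map (UP.cst π)) x') z →
      z ∈ gn ((acl Fs).map (UP.cst π)) x' := by
    intro z hz hza
    refine wrP h (F₀ := F₀) (κs := acl Fs) (ys := ys) (fun j => hFC ▸ hFCc j) hbFc hU'
      (fun j => indep_mono (hFcΩ₀ j) hysΩ₀) (hFC ▸ hcS) hxq hx0 hx1 ?_ hz ?_
    · rw [hFs, hFC]
    · rw [hFs, hFC] at hza
      exact hza
  rw [hx'] at hxind hwr
  -- the coefficients
  let w' : Fin (m + 2) → k₀ := fun e => if e = 1 then w e - c * w 0 else w e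
  have h01 : (0 : Fin (m + 2)) ≠ 1 := by simp
  have hw'0 : w' 0 = w 0 := if_neg h01
  have hw'1 : w' 1 = (T - c) * w 0 := by
    change (if (1 : Fin (m + 2)) = 1 then w (1 : Fin (m + 2)) - c * w 0 else _) = _
    rw [if_pos rfl, hw1]
    ring
  have hιw : ι (w' 1) = Tk * ι (w' 0) := by
    apply Subtype.ext
    change σ₀ (w' 1) = Tc * σ₀ (w' 0)
    rw [hw'1, hw'0, map_mul, hσTc]
  let Kb : J → Subfield kB := fun j => (Kc (ρ j)).comap kB.subtype
  have hσKc : ∀ j x, σ₀ x ∈ Kc (ρ j) := by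
    intro j x
    rw [← hρσ j]
    exact (hloc (ρ j)).2.2.2.1 x
  have hTK : ∀ j, Tc ∈ Kc (ρ j) := by
    intro j
    rw [← hσTc]
    exact hσKc j _
  have hFsK : ∀ j, Fs ≤ Kc (ρ j) := by
    intro j
    refine hFsle _ ?_ ?_
    · intro z hz
      rw [hFC] at hz
      obtain ⟨z, rfl⟩ := hz
      rw [← hσ0 j₁]
      exact hσKc j _
    · intro i
      rw [← hσs j₁]
      exact hσKc j _
  have hKcad : ∀ j, Kc (ρ j) ≤ Subfield.closure ((Fv j : Set C) ∪ {Tc, qC}) := by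
    intro j
    refine ((hloc (ρ j)).2.2.2.2.2.1).trans (ad_le ?_ ?_)
    · exact fun z hz => Subfield.subset_closure (Or.inl (le_gn hz))
    · rintro _ ⟨x, rfl⟩
      rw [hρσ j]
      exact Subfield.closure_mono (Set.union_subset_union_left _ (hFsv j)) (hσ₀k x)
  have hKcB : ∀ j, Kc (ρ j) ≤ kB := by
    intro j
    refine (hKcad j).trans ?_
    rw [hkB]
    exact ad_mono (hFvB j) le_rfl
  have hFcK : ∀ j, Fc' j ≤ Kc (ρ j) := fun j => (hloc (ρ j)).2.2.2.2.1
  have hbK : ∀ j p, b' j p ∈ Kc (ρ j) := fun j p => hFcK j (hbFc j p)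
  have hFvK : ∀ j, Fv j ≤ Kc (ρ j) := fun j => gn_le (hFcK j) fun i => hFsK j (hysFs i)
  -- the linear independence
  have hlinC : LinearIndependent (acl FB) fun i => algebraMap kB C (ι (w' (ei i))) := by
    have hlinA := linInd_acl (C := C) σ₀ (hσ0 j₁) hlin
    refine linInd_big (Ω := acl FB) (fun z => le_acl (hΩ₀FB (hFCΩ₀ (hFC ▸ ⟨z, rfl⟩))))
      (fun z hz => acl_closed hz) (t := TC) (indep_one.1 (indep_acl (indep_one.2 hTFB)))
      (fun i => ?_) hlinA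
    refine alg_map' (L := (adjoin F₀ {TC}).toSubfield) σ₀ (fun x hx => ?_) (halg _)
    have h1 : ad F₀' {T} ≤ (adjoin F₀ {TC}).toSubfield.comap σ₀ := by
      refine ad_le ?_ ?_
      · rintro _ ⟨c, rfl⟩
        change σ₀ (algebraMap F₀ k₀ c) ∈ adjoin F₀ {TC}
        rw [hσ₀, hσ0]
        exact (adjoin F₀ {TC}).algebraMap_mem c
      · intro z hz
        rw [Set.mem_singleton_iff.1 hz]
        change σ₀ T ∈ adjoin F₀ {TC}
        rw [hσ₀, hσT]
        exact mem_adjoin_simple_self F₀ TC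
    exact h1 hx
  -- the models
  have hmod : ∀ j, ModF (F := FB) (C := C) ι (Kb j) P (prm (ι ∘ w') (vv j)) := by
    intro j
    obtain ⟨-, -, -, -, -, -, k₁, k', i1, i2, i3, i4, T', ψ, ι', f', h1, h2, h3, h4, h5, h6, h6q,
      h7⟩ := hloc (ρ j)
    refine ⟨k₁, k', i1, i2, i3, i4, T', ψ, ι', f', h1, h2, ?_, ?_, ?_, ?_, h7⟩
    · rw [← h3]
      ext z
      constructor
      · rintro ⟨x, hx, rfl⟩
        exact hx
      · intro hz
        exact ⟨⟨z, hKcB j hz⟩, hz, rfl⟩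
    · intro z
      exact ⟨⟨_, h4 z⟩, rfl⟩
    · intro x
      change σ₀ x = _
      rw [← hρσ j]
      exact h5 x
    · rintro (_ | i)
      · rw [← h6, hρσ j]
        change algebraMap kB C (∑ e : Fin (m + 2),
          algebraMap FB kB (vv j (Sum.inr e)) * ι (w' e)) = _
        rw [map_sum]
        refine Eq.trans (Finset.sum_congr rfl fun e _ => map_mul (algebraMap kB C) _ _) ?_
        refine sum_pencil1 (b := fun e => b' j (Sum.inr e)) (w := fun e => σ₀ (w e)) (c := (c : C))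
          (v := fun e => algebraMap kB C (algebraMap FB kB (vv j (Sum.inr e))))
          (w' := fun e => algebraMap kB C (ι (w' e))) ?_ ?_ ?_
        · exact hvv0 j
        · exact hvv1 j
        · intro e
          change σ₀ (if e = 1 then w e - c * w 0 else w e) = _
          split_ifs with he
          · rw [map_sub, map_mul, map_natCast]
          · rfl
      · rw [← h6q i]
        rfl
  refine key (F := FB) (k := kB) (C := C) ι (T := Tk) (q := qk) hTtr htopk (κ := acl FB)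
    (fun z => mem_acl) (Fs := Fs) (κs := acl Fs) (fun z => mem_acl) (Fv := Fv) hFsv
    (by rw [hFBr]; exact hFvB) (by rw [hFBr]; exact hFsFB)
    hqs hσ₀k (w := w') hR (by rw [hw'0]; exact hw0) hιw
    ⟨ei, hlinC⟩ h (vv := vv) hvFv hxind hwr (Kb := Kb)
    ?_ ?_ ?_ ?_ ?_ ?_ hmod
  · intro j z hz
    exact hFsK j hz
  · intro j
    exact hTK j
  · intro j
    change qC ∈ Kc (ρ j)
    rw [hqC]
    exact hσKc j q
  · rintro j (i | e)
    · exact hbK j _
    change ((vv j (Sum.inr e) : FB) : C) ∈ Kc (ρ j)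
    rcases Fin.eq_zero_or_eq_succ e with rfl | ⟨e, rfl⟩
    · rw [hvv0]
      exact (Kc (ρ j)).add_mem (hbK j _) ((Kc (ρ j)).mul_mem (natCast_mem _ c) (hbK j _))
    · rw [hvv1]
      exact hbK j _
  · intro j z hz
    have h1 : z ∈ Kc (ρ j) := hFvK j hz
    exact ⟨⟨z, hKcB j h1⟩, h1, rfl⟩
  · intro j
    rintro _ ⟨x, hx, rfl⟩
    exact hKcad j hx


end Pool.Agent.FFX
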