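import Mathlib

/-!
# Project FF: Lagrange resolvents
-/

set_option autoImplicit false

namespace Pool.Agent.FFS

open Finset

/-- A group `Γ` acts on the field `E`, `Γ / B` is finite abelian of exponent `ℓ` and acts faithfully on the elements
fixed by `B`, `E` contains a primitive `ℓ`-th root of unity fixed by `Γ`.  For `y ∉ B` there is an element `r` fixed by
`B`, moved by `y`, such that `r ^ ℓ` is fixed by `Γ`. -/
theorem exists_resolvent {Γ E : Type*} [Group Γ] [Field E] [MulSemiringAction Γ E] {ℓ : ℕ}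
    (hℓ : 0 < ℓ) (B : Subgroup Γ) [Finite (Γ ⧸ B)] (hc : ∀ a b : Γ, a * b * a⁻¹ * b⁻¹ ∈ B)
    (he : ∀ a : Γ, a ^ ℓ ∈ B)
    (hf : ∀ g : Γ, (∀ x : E, (∀ b ∈ B, b • x = x) → g • x = x) → g ∈ B) (ζ : E)
    (hζ : IsPrimitiveRoot ζ ℓ) (hζf : ∀ g : Γ, g • ζ = ζ) (y : Γ) (hy : y ∉ B) :
    ∃ r : E, (∀ g : Γ, g • (r ^ ℓ) = r ^ ℓ) ∧ (∀ b ∈ B, b • r = r) ∧ y • r ≠ r := by
  classical
  have hN : B.Normal := by
    refine ⟨fun b hb g => ?_⟩
    have h1 := B.mul_mem (hc g b) hb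
    have h2 : g * b * g⁻¹ * b⁻¹ * b = g * b * g⁻¹ := by group
    rwa [h2] at h1
  let _ : CommGroup (Γ ⧸ B) :=
    { (inferInstance : Group (Γ ⧸ B)) with
      mul_comm := by
        intro v w
        obtain ⟨a, rfl⟩ := QuotientGroup.mk_surjective v
        obtain ⟨b, rfl⟩ := QuotientGroup.mk_surjective w
        have h1 : ((a * b : Γ) : Γ ⧸ B) = ((b * a : Γ) : Γ ⧸ B) := by
          rw [eq_comm, QuotientGroup.eq]
          have h2 := hc a⁻¹ b⁻¹
          have h3 : (b * a)⁻¹ * (a * b) = a⁻¹ * b⁻¹ * a⁻¹⁻¹ * b⁻¹⁻¹ := by group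
          rw [h3]
          exact h2
        exact h1 }
  have hexp : ∀ v : Γ ⧸ B, v ^ ℓ = 1 := by
    intro v
    obtain ⟨a, rfl⟩ := QuotientGroup.mk_surjective v
    rw [← QuotientGroup.mk_pow, QuotientGroup.eq_one_iff]
    exact he a
  have hne : NeZero ℓ := ⟨hℓ.ne'⟩
  have hen : HasEnoughRootsOfUnity E ℓ := ⟨⟨ζ, hζ⟩, inferInstance⟩
  have hdvd : Monoid.exponent (Γ ⧸ B) ∣ ℓ := Monoid.exponent_dvd_of_forall_pow_eq_one hexp
  have hen' : HasEnoughRootsOfUnity E (Monoid.exponent (Γ ⧸ B)) := HasEnoughRootsOfUnity.of_dvd E hdvd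
  have hy' : (y : Γ ⧸ B) ≠ 1 := by
    rw [Ne, QuotientGroup.eq_one_iff]
    exact hy
  obtain ⟨χ, hχ⟩ := CommGroup.exists_apply_ne_one_of_hasEnoughRootsOfUnity (Γ ⧸ B) E hy'
  have hχl : ∀ v, ((χ v : Eˣ) : E) ^ ℓ = 1 := by
    intro v
    rw [← Units.val_pow_eq_pow_val, ← map_pow, hexp, map_one, Units.val_one]
  have hχf : ∀ (g : Γ) v, g • ((χ v : Eˣ) : E) = ((χ v : Eˣ) : E) := by
    intro g v
    obtain ⟨i, -, hi⟩ := hζ.eq_pow_of_pow_eq_one (hχl v)
    rw [← hi, smul_pow', hζf]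
  -- the fixed elements
  let Mf : Submonoid E :=
    { carrier := {x | ∀ b ∈ B, b • x = x}
      one_mem' := fun b _ => smul_one b
      mul_mem' := fun {x z} hx hz b hb => by rw [smul_mul', hx b hb, hz b hb] }
  let σ : (Γ ⧸ B) → (Mf →* E) := fun v =>
    { toFun := fun x => v.out • (x : E)
      map_one' := smul_one _
      map_mul' := fun x z => smul_mul' _ _ _ }
  have hσ : Function.Injective σ := by
    intro v w h
    have h1 : v.out⁻¹ * w.out ∈ B := by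
      refine hf _ fun x hx => ?_
      have h2 : v.out • x = w.out • x := congrArg (fun s : Mf →* E => s ⟨x, hx⟩) h
      rw [mul_smul, ← h2, inv_smul_smul]
    have h3 : ((v.out : Γ) : Γ ⧸ B) = ((w.out : Γ) : Γ ⧸ B) := QuotientGroup.eq.2 h1
    rwa [QuotientGroup.out_eq', QuotientGroup.out_eq'] at h3
  have _ : Fintype (Γ ⧸ B) := Fintype.ofFinite _
  have hli := (linearIndependent_monoidHom Mf E).comp σ hσ
  have hex : ∃ x : Mf, ∑ v : Γ ⧸ B, ((χ v⁻¹ : Eˣ) : E) * (v.out • (x : E)) ≠ 0 := by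
    by_contra hcon
    push Not at hcon
    rw [Fintype.linearIndependent_iff] at hli
    have h1 := hli (fun v => ((χ v⁻¹ : Eˣ) : E)) (by
      ext x
      rw [Finset.sum_apply]
      exact hcon x) 1
    exact (Units.ne_zero _) h1
  obtain ⟨x, hx⟩ := hex
  set r : E := ∑ v : Γ ⧸ B, ((χ v⁻¹ : Eˣ) : E) * (v.out • (x : E)) with hr
  have hkey : ∀ g : Γ, g • r = ((χ (g : Γ ⧸ B) : Eˣ) : E) * r := by
    intro g
    rw [hr, Finset.smul_sum, Finset.mul_sum]
    have h1 : ∀ v : Γ ⧸ B, g • (((χ v⁻¹ : Eˣ) : E) * (v.out • (x : E))) =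
        ((χ (g : Γ ⧸ B) : Eˣ) : E) * (((χ ((g : Γ ⧸ B) * v)⁻¹ : Eˣ) : E) *
          (((g : Γ ⧸ B) * v).out • (x : E))) := by
      intro v
      have h2 : (((g : Γ ⧸ B) * v).out)⁻¹ * (g * v.out) ∈ B := by
        rw [← QuotientGroup.eq, QuotientGroup.out_eq', QuotientGroup.mk_mul, QuotientGroup.out_eq']
      have h3 : g • (v.out • (x : E)) = ((g : Γ ⧸ B) * v).out • (x : E) := by
        have h4 := x.2 _ h2
        rw [mul_smul, inv_smul_eq_iff, mul_smul] at h4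
        exact h4
      rw [smul_mul', hχf, h3, ← mul_assoc, ← Units.val_mul, ← map_mul, mul_inv_rev]
      congr 3
      rw [mul_comm (v⁻¹), ← mul_assoc, mul_inv_cancel, one_mul]
    rw [Finset.sum_congr rfl fun v _ => h1 v]
    exact Fintype.sum_equiv (Equiv.mulLeft (g : Γ ⧸ B)) _ _ fun v => rfl
  refine ⟨r, fun g => ?_, fun b hb => ?_, fun h => hχ ?_⟩
  · rw [smul_pow', hkey, mul_pow, hχl, one_mul]
  · rw [hkey, (QuotientGroup.eq_one_iff b).2 hb, map_one, Units.val_one, one_mul]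
  · rw [hkey] at h
    have h1 : ((χ (y : Γ ⧸ B) : Eˣ) : E) = 1 := by
      have h2 : (((χ (y : Γ ⧸ B) : Eˣ) : E) - 1) * r = 0 := by rw [sub_mul, h, one_mul, sub_self]
      rcases mul_eq_zero.1 h2 with h3 | h3
      · exact sub_eq_zero.1 h3
      · exact absurd h3 hx
    exact Units.ext h1

/-- Infinite Galois theory: `B ≤ G'` open subgroups of the Galois group of `E / k`. -/
theorem exists_kummer {k E : Type*} [Field k] [Field E] [Algebra k E] [IsGalois k E] {ℓ : ℕ}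
    (hℓ : 0 < ℓ) (G' B : Subgroup (E ≃ₐ[k] E)) (hBG : B ≤ G')
    (L : IntermediateField k E) [FiniteDimensional k L]
    (hL : ∀ g : E ≃ₐ[k] E, (∀ x ∈ L, g x = x) → g ∈ B)
    (hc : ∀ a ∈ G', ∀ b ∈ G', a * b * a⁻¹ * b⁻¹ ∈ B) (he : ∀ a ∈ G', a ^ ℓ ∈ B) (ζ : E)
    (hζ : IsPrimitiveRoot ζ ℓ) (hζf : ∀ g ∈ G', g ζ = ζ) (hne : B ≠ G') :
    ∃ r : E, (∀ g ∈ G', g (r ^ ℓ) = r ^ ℓ) ∧ (∀ g ∈ B, g r = r) ∧ ∃ g ∈ G', g r ≠ r := by
  classical
  obtain ⟨y, hyG, hyB⟩ : ∃ y ∈ G', y ∉ B := by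
    by_contra hcon
    push Not at hcon
    exact hne (le_antisymm hBG hcon)
  have hopen : IsOpen (B : Set (E ≃ₐ[k] E)) :=
    Subgroup.isOpen_mono (H₁ := L.fixingSubgroup) (fun g hg => hL g fun x hx =>
      (IntermediateField.mem_fixingSubgroup_iff L g).1 hg x hx) L.fixingSubgroup_isOpen
  have hclosed : IsClosed (B : Set (E ≃ₐ[k] E)) := B.isClosed_of_isOpen hopen
  have hfi : Finite ((E ≃ₐ[k] E) ⧸ B) := Subgroup.quotient_finite_of_isOpen B hopen
  let B' : Subgroup G' := B.subgroupOf G'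
  have hfi' : Finite (G' ⧸ B') := by
    refine Finite.of_injective (fun v : G' ⧸ B' => Quotient.liftOn' v
      (fun a : G' => ((a : E ≃ₐ[k] E) : (E ≃ₐ[k] E) ⧸ B)) ?_) ?_
    · intro a b h
      rw [QuotientGroup.leftRel_apply] at h
      exact QuotientGroup.eq.2 h
    · intro v w h
      obtain ⟨a, rfl⟩ := QuotientGroup.mk_surjective v
      obtain ⟨b, rfl⟩ := QuotientGroup.mk_surjective w
      have h' : (((a : G') : E ≃ₐ[k] E) : (E ≃ₐ[k] E) ⧸ B) = (((b : G') : E ≃ₐ[k] E) : (E ≃ₐ[k] E) ⧸ B) := h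
      have h2 : ((a : G') : E ≃ₐ[k] E)⁻¹ * ((b : G') : E ≃ₐ[k] E) ∈ B := QuotientGroup.eq.1 h'
      exact QuotientGroup.eq.2 h2
  obtain ⟨r, h1, h2, h3⟩ := exists_resolvent (Γ := G') (E := E) hℓ B'
    (fun a b => hc a a.2 b b.2) (fun a => he a a.2) (fun g hg => by
      have h1 : (g : E ≃ₐ[k] E) ∈
          (IntermediateField.fixedField B).fixingSubgroup := by
        rw [IntermediateField.mem_fixingSubgroup_iff]
        intro x hx
        refine hg x fun b hb => ?_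
        rw [IntermediateField.mem_fixedField_iff] at hx
        exact hx b hb
      have h2 := InfiniteGalois.fixingSubgroup_fixedField (k := k) (K := E) ⟨B, hclosed⟩
      have h3 : (IntermediateField.fixedField B).fixingSubgroup = B := h2
      rw [h3] at h1
      exact h1) ζ hζ (fun g => hζf g g.2) ⟨y, hyG⟩ hyB
  exact ⟨r, fun g hg => h1 ⟨g, hg⟩, fun g hg => h2 ⟨g, hBG hg⟩ hg, y, hyG, h3⟩

end Pool.Agent.FFS
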