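import Pool.Agent.Helper13.FF.UPc
import Pool.Agent.Helper45.FF.PR.Defs
import Pool.Agent.Helper97.FF.Lv

/-!
# Project FF, block LEVP
-/

set_option autoImplicit false
set_option linter.unusedSectionVars false

namespace Pool.Agent.FFS

open VC IntermediateField Pool.Agent.SC
open Pool.Agent.L (L0 MM)
open Pool.Agent.LN (Geo Act)
open Pool.Agent.M (Moves OverPl inL0)
open Pool.Agent.ML (BPl)
open Pool.Agent.TOW (Au AuE auE59 inL59 rMM59 L0_le_MM over59 exists_im)
open Pool.Agent.PRL (IsPL)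
open Pool.Agent.GCL (PLf)

noncomputable section

theorem pow_toRingEquiv {M U : Type} [Field M] [Field U] [Algebra M U] (σ : U ≃ₐ[M] U) (n : ℕ) (z : U) :
    ((σ.toRingEquiv) ^ n) z = (σ ^ n) z := by
  induction n generalizing z with
  | zero => rfl
  | succ n ih =>
    rw [pow_succ, pow_succ]
    exact ih (σ z)

/-- **Block LEVP.** -/
theorem stmtLEVP : StmtLEVP := by
  intro F k K0 E U U' _ _ _ _ _ _ _ _ _ _ _ _ _ _ _ _ _ _ _ _ ℓ h r i r' hℓ G hU S B c c' W₀ hC hBf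
    hBs hT Φ hΦ hloc
  let _ : Algebra U' U := i.toAlgebra
  have s1 : IsScalarTower E U' U := IsScalarTower.of_algebraMap_eq fun e => (hU.const e).symm
  have s2 : IsScalarTower K0 U' U := IsScalarTower.of_algebraMap_eq fun x => (hU.base x).symm
  obtain ⟨hconst, hbase, hroot, hrange⟩ := hU
  subst hroot
  have hcl : IsAlgClosed E := G.clE
  have P' : IsPLF E K0 U ℓ r' := by
    refine ⟨fun z => ?_⟩
    rw [show (∃ z' : U', algebraMap U' U z' = z) ↔ z ∈ PLf ℓ (MM E K0 (i r')) from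
      (hrange z).symm]
    constructor
    · intro hz σ hσ hσr
      let σ' : U ≃ₐ[MM E K0 (i r')] U := AlgEquiv.ofRingEquiv (f := σ)
        fun m => hσ.onMM hσr (m : U) m.2
      obtain ⟨j, hj⟩ := hz σ'
      exact ⟨j, (pow_toRingEquiv σ' _ z).trans hj⟩
    · intro hz σ
      obtain ⟨j, hj⟩ := hz σ.toRingEquiv (auE59 fun x hx => σ.commutes ⟨x, L0_le_MM hx⟩)
        (σ.commutes ⟨_, rMM59⟩)
      exact ⟨j, (pow_toRingEquiv σ _ z).symm.trans hj⟩
  obtain ⟨b, P, hb, hP, hbΦ, hlev⟩ := lev_up hℓ P' G hC hBf hBs hT (actG_of_act hΦ) hloc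
  refine ⟨b, P, hb, hP, hbΦ, fun z g => ?_⟩
  obtain ⟨N, h1, h2, h3, h4⟩ := exists_lvl97 hℓ P' G z
  exact hlev N h1 h2 h3 z h4 g

end

end Pool.Agent.FFS
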