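import Pool.Agent.Helper13.FF.Defs
import Pool.Agent.Helper13.FF.Kum
import Pool.Agent.Helper45.FF.LEV
import Pool.Agent.Helper45.FF.Grp
import Pool.Agent.Helper17.PL.CHN

/-!
# Project FF, block LEV, part 1: the group of a level
-/

set_option autoImplicit false
set_option linter.unusedSectionVars false

namespace Pool.Agent.FFS

open VC IntermediateField Pool.Agent.SC
open Pool.Agent.L (L0 MM)
open Pool.Agent.M (Moves OverPl inL0)
open Pool.Agent.ML (BPl)
open Pool.Agent.TOW (Au AuE auE59 inL59 rMM59 L0_le_MM)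
open Pool.Agent.PRL (IsPL)
open Pool.Agent.PRL.CHN17 (Nh Gm AuG tN res17 res17_apply exists_lift17 fin17 nor17 Lvl.l0_le17)
open Pool.Agent.FF45 (Dl burnside_Dl Dl_pow Dl_comm)

noncomputable section

section lev

variable {k K0 E U : Type} [Field k] [Field K0] [Field E] [Field U] [Algebra k K0]
  [Algebra k E] [Algebra E U] [Algebra K0 U] [Algebra k U] [IsScalarTower k E U]
  [IsScalarTower k K0 U] {N : IntermediateField E U} {ℓ : ℕ}

/-- the restriction to the level, as a homomorphism -/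
def tNh (hN : TW.Lvl E K0 N) : AuG E K0 U →* (Nh hN ≃+* Nh hN) where
  toFun := tN hN
  map_one' := RingEquiv.ext fun _ => rfl
  map_mul' _ _ := RingEquiv.ext fun _ => rfl

theorem map_L0 {T : U ≃+* U} (hT : Au E K0 T) : ∀ z ∈ L0 E K0 (U := U), T z ∈ L0 E K0 (U := U) := by
  intro z hz
  refine IntermediateField.adjoin_induction (p := fun z _ => T z ∈ L0 E K0 (U := U)) E ?_ ?_ ?_ ?_ ?_ hz
  · rintro _ ⟨x, rfl⟩
    rw [hT.fixK]
    exact inL59 x
  · intro e
    obtain ⟨e', he'⟩ := hT.presE e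
    rw [he']
    exact (L0 E K0 (U := U)).algebraMap_mem e'
  · intro x y _ _ hx hy
    rw [map_add]
    exact add_mem hx hy
  · intro x _ hx
    rw [map_inv₀]
    exact inv_mem hx
  · intro x y _ _ hx hy
    rw [map_mul]
    exact mul_mem hx hy

/-- an element of `U` fixed by all automorphisms over `L0` -/
theorem mem_L0_of_fixed [IsGalois (L0 E K0 (U := U)) U] {z : U}
    (h : ∀ a : U ≃+* U, AuE E K0 a → a z = z) : z ∈ L0 E K0 (U := U) := by
  obtain ⟨y, hy⟩ := (InfiniteGalois.mem_range_algebraMap_iff_fixed (k := L0 E K0 (U := U)) z).2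
    (fun σ => h σ.toRingEquiv (auE59 fun x hx => σ.commutes ⟨x, hx⟩))
  rw [← hy]
  exact y.2

theorem res17_pow (hN : TW.Lvl E K0 N) {a : U ≃+* U} (ha : AuE E K0 a) (n : ℕ) (x : Nh hN) :
    (((res17 hN ha) ^ n) x : U) = (a ^ n) x := by
  induction n generalizing x with
  | zero => rfl
  | succ n ih =>
    rw [pow_succ, pow_succ]
    exact ih _

theorem isPGroup_Gm [IsGalois (L0 E K0 (U := U)) U] (hN : TW.Lvl E K0 N) (hPL : IsPL E K0 ℓ N) :
    IsPGroup ℓ (Gm hN) := by
  intro γ
  obtain ⟨a, ha, rfl⟩ := exists_lift17 hN γ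
  obtain ⟨j, hj⟩ := hPL a ha
  refine ⟨j, ?_⟩
  ext x
  rw [res17_pow]
  exact hj x x.2

/-- An element of the group of the level which is trivial on the elements whose `ℓ`-th power is in `L0` is a product of
`ℓ`-th powers and commutators. -/
theorem mem_Dl [IsAlgClosed E] [CharZero E] [IsGalois (L0 E K0 (U := U)) U] (hℓ : ℓ.Prime)
    (hN : TW.Lvl E K0 N) (hff : IsFunctionField E (L0 E K0 (U := U))) (y : Gm hN)
    (hy : ∀ z : Nh hN, (z : U) ^ ℓ ∈ L0 E K0 (U := U) → y z = z) : y ∈ Dl ℓ (Gm hN) := by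
  classical
  by_contra hcon
  have hfd : FiniteDimensional (L0 E K0 (U := U)) (Nh hN) := fin17 hN hff
  have hne : NeZero (ℓ : E) := ⟨Nat.cast_ne_zero.2 hℓ.ne_zero⟩
  have hne' : NeZero ℓ := ⟨hℓ.ne_zero⟩
  obtain ⟨ζ, hζ⟩ := HasEnoughRootsOfUnity.exists_primitiveRoot E ℓ
  let ζ' : Nh hN := algebraMap (L0 E K0 (U := U)) (Nh hN) (algebraMap E (L0 E K0 (U := U)) ζ)
  have hζ' : IsPrimitiveRoot ζ' ℓ := (hζ.map_of_injective
    (algebraMap E (L0 E K0 (U := U))).injective).map_of_injective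
    (algebraMap (L0 E K0 (U := U)) (Nh hN)).injective
  obtain ⟨r, h1, -, h3⟩ := exists_resolvent (Γ := Gm hN) (E := Nh hN) hℓ.pos (Dl ℓ (Gm hN))
    (fun a b => Dl_comm a b) (fun a => Dl_pow a) (fun g hg => by
      have h1 : g ∈ (IntermediateField.fixedField (Dl ℓ (Gm hN))).fixingSubgroup := by
        rw [IntermediateField.mem_fixingSubgroup_iff]
        intro x hx
        refine hg x fun b hb => ?_
        rw [IntermediateField.mem_fixedField_iff] at hx
        exact hx b hb
      rwa [IntermediateField.fixingSubgroup_fixedField] at h1) ζ' hζ'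
    (fun g => g.commutes _) y hcon
  refine h3 (hy r ?_)
  refine mem_L0_of_fixed fun a ha => ?_
  have h4 := congrArg (fun z : Nh hN => (z : U)) (h1 (res17 hN ha))
  exact h4

end lev

end

end Pool.Agent.FFS
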