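import Pool.Agent.Helper13.FF.LEVa
import Pool.Agent.Helper13.FF.AT0

/-!
# Project FF, block LEV, part 2: the theorem for one level
-/

set_option autoImplicit false
set_option linter.unusedSectionVars false

namespace Pool.Agent.FFS

open VC IntermediateField Pool.Agent.SC
open Pool.Agent.L (L0 MM)
open Pool.Agent.M (Moves OverPl inL0)
open Pool.Agent.ML (BPl)
open Pool.Agent.TOW (Au AuE auE59 inL59 rMM59 L0_le_MM over59 exists_im)
open Pool.Agent.PRL (IsPL)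
open Pool.Agent.PRL.CHN17 (Nh Gm AuG tN res17 res17_apply exists_lift17 fin17 nor17 Lvl.l0_le17)
open Pool.Agent.FF45 (Dl burnside_Dl Dl_pow Dl_comm)

noncomputable section

section lev

variable {k K0 E U : Type} [Field k] [Field K0] [Field E] [Field U] [Algebra k K0]
  [Algebra k E] [Algebra E U] [Algebra K0 U] [Algebra k U] [IsScalarTower k E U]
  [IsScalarTower k K0 U] {N : IntermediateField E U} {ℓ : ℕ}

/-- conjugation of the group of the level by an automorphism -/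
def cj (hN : TW.Lvl E K0 N) (T : AuG E K0 U) (γ : Gm hN) : Gm hN :=
  AlgEquiv.ofRingEquiv (f := tNh hN T * (γ : Nh hN ≃+* Nh hN) * (tNh hN T)⁻¹) fun x => by
    apply Subtype.ext
    have h1 : (T : U ≃+* U)⁻¹ (x : U) ∈ L0 E K0 (U := U) := map_L0 T.2.2 x x.2
    have h2 : (tNh hN T)⁻¹ (algebraMap (L0 E K0 (U := U)) (Nh hN) x) =
        algebraMap (L0 E K0 (U := U)) (Nh hN) ⟨(T : U ≃+* U)⁻¹ (x : U), h1⟩ := Subtype.ext rfl
    change ((tNh hN T (γ ((tNh hN T)⁻¹ (algebraMap (L0 E K0 (U := U)) (Nh hN) x))) : Nh hN) : U) = x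
    rw [h2, γ.commutes]
    exact (T : U ≃+* U).apply_symm_apply x

theorem cj_coe (hN : TW.Lvl E K0 N) (T : AuG E K0 U) (γ : Gm hN) :
    (cj hN T γ : Nh hN ≃+* Nh hN) = tNh hN T * (γ : Nh hN ≃+* Nh hN) * (tNh hN T)⁻¹ :=
  RingEquiv.ext fun _ => rfl

theorem gm_ext {hN : TW.Lvl E K0 N} {γ δ : Gm hN}
    (h : (γ : Nh hN ≃+* Nh hN) = (δ : Nh hN ≃+* Nh hN)) : γ = δ :=
  AlgEquiv.ext fun x => congrArg (fun f : Nh hN ≃+* Nh hN => f x) h

theorem coe_mul {hN : TW.Lvl E K0 N} (γ δ : Gm hN) :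
    ((γ * δ : Gm hN) : Nh hN ≃+* Nh hN) = (γ : Nh hN ≃+* Nh hN) * (δ : Nh hN ≃+* Nh hN) :=
  RingEquiv.ext fun _ => rfl

/-- conjugation as an automorphism -/
def cjA (hN : TW.Lvl E K0 N) (T : AuG E K0 U) : MulAut (Gm hN) where
  toFun := cj hN T
  invFun := cj hN T⁻¹
  left_inv γ := gm_ext (by rw [cj_coe, cj_coe, map_inv]; group)
  right_inv γ := gm_ext (by rw [cj_coe, cj_coe, map_inv]; group)
  map_mul' γ δ := gm_ext (by rw [coe_mul, cj_coe, cj_coe, cj_coe, coe_mul]; group)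

theorem cjA_pow (hN : TW.Lvl E K0 N) (T : AuG E K0 U) (n : ℕ) (γ : Gm hN) :
    (((cjA hN T ^ n) γ : Gm hN) : Nh hN ≃+* Nh hN) =
      tNh hN T ^ n * (γ : Nh hN ≃+* Nh hN) * (tNh hN T ^ n)⁻¹ := by
  induction n generalizing γ with
  | zero => rw [pow_zero, pow_zero, one_mul, inv_one, mul_one]; rfl
  | succ n ih =>
    have h1 : (cjA hN T ^ (n + 1)) γ = (cjA hN T ^ n) (cj hN T γ) := by
      rw [pow_succ]
      rfl
    rw [h1, ih, cj_coe, pow_succ]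
    group

/-- Burnside: an automorphism which acts trivially on the maximal abelian extension of exponent `ℓ` acts on the group of
the level with order a power of `ℓ`. -/
theorem exists_pow_comm [IsAlgClosed E] [CharZero E] [IsGalois (L0 E K0 (U := U)) U] (hℓ : ℓ.Prime)
    (hN : TW.Lvl E K0 N) (hff : IsFunctionField E (L0 E K0 (U := U))) (hPL : IsPL E K0 ℓ N)
    (T : AuG E K0 U)
    (hT : ∀ a : U ≃+* U, AuE E K0 a → ∀ z : U, z ^ ℓ ∈ L0 E K0 (U := U) →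
      (T : U ≃+* U) (a z) = a ((T : U ≃+* U) z)) :
    ∃ n : ℕ, ∀ γ : Gm hN, tNh hN T ^ ℓ ^ n * (γ : Nh hN ≃+* Nh hN) =
      (γ : Nh hN ≃+* Nh hN) * tNh hN T ^ ℓ ^ n := by
  have hfd : FiniteDimensional (L0 E K0 (U := U)) (Nh hN) := fin17 hN hff
  have : Fact ℓ.Prime := ⟨hℓ⟩
  obtain ⟨n, hn⟩ := burnside_Dl (isPGroup_Gm hN hPL) (cjA hN T) (fun γ => by
    refine mem_Dl hℓ hN hff _ fun z hz => ?_
    obtain ⟨a, ha, rfl⟩ := exists_lift17 hN γ
    have h1 : cjA hN T (res17 hN ha) z = res17 hN ha z := by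
      apply Subtype.ext
      change (T : U ≃+* U) (a ((T : U ≃+* U)⁻¹ z)) = a z
      have h2 : ((T : U ≃+* U)⁻¹ (z : U)) ^ ℓ ∈ L0 E K0 (U := U) := by
        rw [← map_pow]
        exact map_L0 T.2.2 _ hz
      rw [hT a ha _ h2]
      congr 1
      exact (T : U ≃+* U).apply_symm_apply z
    change (res17 hN ha)⁻¹ (cjA hN T (res17 hN ha) z) = z
    rw [h1]
    exact (res17 hN ha).symm_apply_apply z)
  refine ⟨n, fun γ => ?_⟩
  have h1 := cjA_pow hN T (ℓ ^ n) γ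
  rw [hn] at h1
  have h2 : (((1 : MulAut (Gm hN)) γ : Gm hN) : Nh hN ≃+* Nh hN) = (γ : Nh hN ≃+* Nh hN) := rfl
  rw [h2] at h1
  calc tNh hN T ^ ℓ ^ n * (γ : Nh hN ≃+* Nh hN) =
      (tNh hN T ^ ℓ ^ n * (γ : Nh hN ≃+* Nh hN) * (tNh hN T ^ ℓ ^ n)⁻¹) * tNh hN T ^ ℓ ^ n := by
        rw [inv_mul_cancel_right]
    _ = (γ : Nh hN ≃+* Nh hN) * tNh hN T ^ ℓ ^ n := by rw [← h1]

end lev

end

end Pool.Agent.FFS
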