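import Pool.Agent.Helper13.FF.LEVb

/-!
# Project FF, block LEV, part 3: the theorem for one level
-/

set_option autoImplicit false
set_option linter.unusedSectionVars false

namespace Pool.Agent.FFS

open VC IntermediateField Pool.Agent.SC
open Pool.Agent.L (L0 MM)
open Pool.Agent.M (Moves OverPl inL0)
open Pool.Agent.ML (BPl)
open Pool.Agent.TOW (Au AuE auE59 inL59 rMM59 L0_le_MM over59 exists_im)
open Pool.Agent.PRL (IsPL)
open Pool.Agent.PRL.CHN17 (Nh Gm AuG tN res17 res17_apply exists_lift17 fin17 nor17 Lvl.l0_le17)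
open Pool.Agent.FF45 (Dl burnside_Dl Dl_pow Dl_comm)

noncomputable section

/-- the action of the automorphisms of a field on its subsets -/
def setAct (M : Type) [Field M] : MulAction (M ≃+* M) (Set M) where
  smul x s := {z | x.symm z ∈ s}
  one_smul _ := rfl
  mul_smul _ _ _ := rfl

section lev

variable {k K0 E U : Type} [Field k] [Field K0] [Field E] [Field U] [Algebra k K0]
  [Algebra k E] [Algebra E U] [Algebra K0 U] [Algebra k U] [IsScalarTower k E U]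
  [IsScalarTower k K0 U] {N : IntermediateField E U} {ℓ : ℕ}

/-- the PXL facts for the level `N` -/
def PX (E K0 : Type) {U : Type} [Field E] [Field K0] [Field U] [Algebra E U] [Algebra K0 U]
    (ℓ : ℕ) (h : K0) (r : U) (N : IntermediateField E U) : Prop :=
  (∀ (T : U ≃+* U) (Q : Place E N), AuE E K0 T → T r = r → Moves T N Q Q → ∀ z ∈ N, T z = z) ∧
    ∀ b : Place E (L0 E K0 (U := U)), BPl ℓ h b →
      ∀ Q Q' : Place E N, OverPl b Q → OverPl b Q' →
        ∃ a : U ≃+* U, AuE E K0 a ∧ a r = r ∧ Moves a N Q Q'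

/-- the place as a subset of the level -/
def sQ (hN : TW.Lvl E K0 N) (Q : Place E N) : Set (Nh hN) := {z | (⟨z, z.2⟩ : N) ∈ Q.ring}

theorem moves_iff (hN : TW.Lvl E K0 N) {T : U ≃+* U} {x : Nh hN ≃+* Nh hN}
    (hx : ∀ z : Nh hN, (x z : U) = T z) (Q Q' : Place E N) :
    (setAct (Nh hN)).smul x (sQ hN Q) = sQ hN Q' ↔ Moves T N Q Q' := by
  constructor
  · intro h z hz hz'
    have h1 : x ⟨z, hz⟩ ∈ (setAct (Nh hN)).smul x (sQ hN Q) ↔ x ⟨z, hz⟩ ∈ sQ hN Q' := by rw [h]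
    have h2 : x ⟨z, hz⟩ ∈ (setAct (Nh hN)).smul x (sQ hN Q) ↔ (⟨z, hz⟩ : N) ∈ Q.ring := by
      change x.symm (x ⟨z, hz⟩) ∈ sQ hN Q ↔ _
      rw [x.symm_apply_apply]
      rfl
    have h3 : x ⟨z, hz⟩ ∈ sQ hN Q' ↔ (⟨T z, hz'⟩ : N) ∈ Q'.ring := by
      have h4 : (⟨((x ⟨z, hz⟩ : Nh hN) : U), (x ⟨z, hz⟩).2⟩ : N) = ⟨T z, hz'⟩ := Subtype.ext (hx _)
      change (⟨((x ⟨z, hz⟩ : Nh hN) : U), (x ⟨z, hz⟩).2⟩ : N) ∈ Q'.ring ↔ _
      rw [h4]
    rw [← h2, h1, h3]
  · intro h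
    ext z
    obtain ⟨w, rfl⟩ := x.surjective z
    change x.symm (x w) ∈ sQ hN Q ↔ _
    rw [x.symm_apply_apply]
    have h1 : T w ∈ N := by rw [← hx]; exact (x w).2
    have h2 := h w w.2 h1
    have h4 : (⟨((x w : Nh hN) : U), (x w).2⟩ : N) = ⟨T w, h1⟩ := Subtype.ext (hx _)
    change (⟨(w : U), w.2⟩ : N) ∈ Q.ring ↔ (⟨((x w : Nh hN) : U), (x w).2⟩ : N) ∈ Q'.ring
    rw [h4]
    exact h2

theorem sQ_inj (hN : TW.Lvl E K0 N) {Q Q' : Place E N} (h : sQ hN Q = sQ hN Q') : Q = Q' := by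
  apply Place.ext
  apply SetLike.ext
  intro z
  have h1 : (⟨(z : U), z.2⟩ : Nh hN) ∈ sQ hN Q ↔ (⟨(z : U), z.2⟩ : Nh hN) ∈ sQ hN Q' := by rw [h]
  exact h1

theorem tNh_apply (hN : TW.Lvl E K0 N) (T : AuG E K0 U) (z : Nh hN) :
    (tNh hN T z : U) = (T : U ≃+* U) z := rfl

/-- finitely many elements are fixed by an open subgroup -/
theorem exists_open (Φ : (E ≃ₐ[k] E) →* (U ≃+* U))
    (hcont : ∀ z : U, ∃ L : IntermediateField k E, FiniteDimensional k L ∧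
      ∀ g : E ≃ₐ[k] E, (∀ x ∈ L, g x = x) → Φ g z = z) (Z : Set U) (hZ : Z.Finite) :
    ∃ L : IntermediateField k E, FiniteDimensional k L ∧
      ∀ g : E ≃ₐ[k] E, (∀ x ∈ L, g x = x) → ∀ z ∈ Z, Φ g z = z := by
  classical
  induction Z, hZ using Set.Finite.induction_on with
  | empty => exact ⟨⊥, inferInstance, fun g _ z hz => absurd hz (Set.notMem_empty z)⟩
  | insert _ _ ih =>
    rename_i a s _ _
    obtain ⟨L, hL, h⟩ := ih
    obtain ⟨L', hL', h'⟩ := hcont a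
    refine ⟨L ⊔ L', inferInstance, fun g hg z hz => ?_⟩
    rcases hz with rfl | hz
    · exact h' g fun x hx => hg x (le_sup_right (a := L) hx)
    · exact h g (fun x hx => hg x (le_sup_left (b := L') hx)) z hz

end lev

end

end Pool.Agent.FFS
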