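import Pool.Agent.Helper13.FF.LEVc

/-!
# Project FF, block LEV, part 4: the theorem for one level
-/

set_option autoImplicit false
set_option linter.unusedSectionVars false

namespace Pool.Agent.FFS

open VC IntermediateField Pool.Agent.SC
open Pool.Agent.L (L0 MM)
open Pool.Agent.M (Moves OverPl inL0)
open Pool.Agent.ML (BPl)
open Pool.Agent.TOW (Au AuE auE59 inL59 rMM59 L0_le_MM over59 exists_im)
open Pool.Agent.PRL (IsPL)
open Pool.Agent.PRL.CHN17 (Nh Gm AuG tN res17 res17_apply exists_lift17 fin17 nor17 Lvl.l0_le17)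
open Pool.Agent.FF45 (Dl burnside_Dl Dl_pow Dl_comm)

noncomputable section

section lev

variable {k K0 E U : Type} [Field k] [Field K0] [Field E] [Field U] [Algebra k K0]
  [Algebra k E] [Algebra E U] [Algebra K0 U] [Algebra k U] [IsScalarTower k E U]
  [IsScalarTower k K0 U] {N : IntermediateField E U} {ℓ : ℕ}

theorem au_of {Φ : (E ≃ₐ[k] E) →* (U ≃+* U)}
    (hcst : ∀ g (e : E), Φ g (algebraMap E U e) = algebraMap E U (g e))
    (hfixK : ∀ g (x : K0), Φ g (algebraMap K0 U x) = algebraMap K0 U x) (g : E ≃ₐ[k] E) :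
    Au E K0 (Φ g) := ⟨hfixK g, fun e => ⟨g e, hcst g e⟩⟩

/-- the action as a homomorphism to the group of automorphisms over `K0` -/
def toAuG (Φ : (E ≃ₐ[k] E) →* (U ≃+* U))
    (hcst : ∀ g (e : E), Φ g (algebraMap E U e) = algebraMap E U (g e))
    (hfixK : ∀ g (x : K0), Φ g (algebraMap K0 U x) = algebraMap K0 U x) :
    (E ≃ₐ[k] E) →* AuG E K0 U where
  toFun g := ⟨Φ g, au_of hcst hfixK g, by rw [← map_inv]; exact au_of hcst hfixK g⁻¹⟩
  map_one' := Subtype.ext (map_one Φ)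
  map_mul' g g' := Subtype.ext (map_mul Φ g g')

/-- the automorphisms of the level which fix `M` -/
def HM (E K0 : Type) {U : Type} [Field E] [Field K0] [Field U] [Algebra E U] [Algebra K0 U]
    (r : U) {N : IntermediateField E U} (hN : TW.Lvl E K0 N) : Subgroup (Nh hN ≃+* Nh hN) where
  carrier := {x | ∀ z : Nh hN, (z : U) ∈ MM E K0 r → x z = z}
  one_mem' := fun _ _ => rfl
  mul_mem' := fun {x y} hx hy z hz => by
    change x (y z) = z
    rw [hy z hz, hx z hz]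
  inv_mem' := fun {x} hx z hz => by
    change x.symm z = z
    rw [RingEquiv.symm_apply_eq, hx z hz]

theorem exists_liftH [IsGalois (L0 E K0 (U := U)) U] {r : U} (hN : TW.Lvl E K0 N)
    (hMN : MM E K0 r ≤ N) {x : Nh hN ≃+* Nh hN} (hx : x ∈ HM E K0 r hN) :
    ∃ (γ : Gm hN) (a : U ≃+* U) (ha : AuE E K0 a), (γ : Nh hN ≃+* Nh hN) = x ∧ a r = r ∧
      res17 hN ha = γ ∧ ∀ z : Nh hN, (x z : U) = a z := by
  let γ : Gm hN := AlgEquiv.ofRingEquiv (f := x) fun l => hx _ (L0_le_MM l.2)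
  obtain ⟨a, ha, hγ⟩ := exists_lift17 hN γ
  have h1 : ∀ z : Nh hN, (x z : U) = a z := fun z => by
    have h2 : ((γ z : Nh hN) : U) = a z := by rw [← hγ]; rfl
    exact h2
  refine ⟨γ, a, ha, RingEquiv.ext fun _ => rfl, ?_, hγ, h1⟩
  have h2 := h1 ⟨r, hMN rMM59⟩
  rw [hx _ rMM59] at h2
  exact h2.symm

theorem mem_HM_of {r : U} (hN : TW.Lvl E K0 N) {a : U ≃+* U} (ha : AuE E K0 a) (har : a r = r)
    {x : Nh hN ≃+* Nh hN} (hx : ∀ z : Nh hN, (x z : U) = a z) : x ∈ HM E K0 r hN := by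
  intro z hz
  apply Subtype.ext
  rw [hx, ha.onMM har _ hz]

theorem finite_HM [IsGalois (L0 E K0 (U := U)) U] {r : U} (hN : TW.Lvl E K0 N)
    (hff : IsFunctionField E (L0 E K0 (U := U))) : Finite (HM E K0 r hN) := by
  have hfd : FiniteDimensional (L0 E K0 (U := U)) (Nh hN) := fin17 hN hff
  refine Finite.of_injective (fun x : HM E K0 r hN => (AlgEquiv.ofRingEquiv (f := x.1)
    fun l => x.2 _ (L0_le_MM l.2) : Gm hN)) ?_
  intro x y hxy
  apply Subtype.ext
  ext z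
  exact congrArg (fun γ : Gm hN => ((γ z : Nh hN) : U)) hxy

theorem isPGroup_HM [IsGalois (L0 E K0 (U := U)) U] {r : U} (hN : TW.Lvl E K0 N)
    (hMN : MM E K0 r ≤ N) (hPL : IsPL E K0 ℓ N) : IsPGroup ℓ (HM E K0 r hN) := by
  rintro ⟨x, hx⟩
  obtain ⟨γ, a, ha, h1, -, h2, -⟩ := exists_liftH hN hMN hx
  obtain ⟨j, hj⟩ := isPGroup_Gm hN hPL γ
  refine ⟨j, ?_⟩
  apply Subtype.ext
  change x ^ ℓ ^ j = 1
  have h3 : ∀ n : ℕ, ((γ ^ n : Gm hN) : Nh hN ≃+* Nh hN) = x ^ n := by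
    intro n
    induction n with
    | zero => rfl
    | succ n ih => rw [pow_succ, pow_succ, coe_mul, ih, h1]
  rw [← h3, hj]
  rfl

theorem map_MM {r : U} {h : K0} [IsAlgClosed E] (hℓ : 0 < ℓ) (hrp : r ^ ℓ = algebraMap K0 U h)
    (hr : r ≠ 0) {T : U ≃+* U} (hT : Au E K0 T) : ∀ z ∈ MM E K0 r, T z ∈ MM E K0 r := by
  intro z hz
  refine IntermediateField.adjoin_induction (p := fun z _ => T z ∈ MM E K0 r) E ?_ ?_ ?_ ?_ ?_ hz
  · rintro _ (⟨x, rfl⟩ | hx)
    · rw [hT.fixK]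
      exact L0_le_MM (inL59 x)
    · rw [Set.mem_singleton_iff.1 hx]
      obtain ⟨ζ, -, hζ⟩ := Pool.Agent.PDL.eig_root (E := E) hℓ hr (T := T) (by rw [hrp, hT.fixK])
      rw [hζ]
      exact mul_mem ((MM E K0 r).algebraMap_mem ζ) rMM59
  · intro e
    obtain ⟨e', he'⟩ := hT.presE e
    rw [he']
    exact (MM E K0 r).algebraMap_mem e'
  · intro x y _ _ hx hy
    rw [map_add]
    exact add_mem hx hy
  · intro x _ hx
    rw [map_inv₀]
    exact inv_mem hx
  · intro x y _ _ hx hy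
    rw [map_mul]
    exact mul_mem hx hy

/-- the fixing group of the set `B` -/
def fixB (B : Set E) : Subgroup (E ≃ₐ[k] E) where
  carrier := {γ | OnB B γ}
  one_mem' := fun _ _ => rfl
  mul_mem' := fun {x y} hx hy z hz => by
    change x (y z) = z
    rw [hy z hz, hx z hz]
  inv_mem' := fun {x} hx z hz => by
    change x.symm z = z
    rw [AlgEquiv.symm_apply_eq, hx z hz]

theorem mem_fixB {B : Set E} {γ : E ≃ₐ[k] E} : γ ∈ fixB (k := k) B ↔ OnB B γ := Iff.rfl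

end lev

end

end Pool.Agent.FFS
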