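import Pool.Agent.Helper13.FF.LEVd

/-!
# Project FF, block LEV, part 5: the theorem for one level
-/

set_option autoImplicit false
set_option linter.unusedSectionVars false

namespace Pool.Agent.FFS

open VC IntermediateField Pool.Agent.SC
open Pool.Agent.L (L0 MM)
open Pool.Agent.M (Moves OverPl inL0)
open Pool.Agent.ML (BPl)
open Pool.Agent.TOW (Au AuE auE59 inL59 rMM59 L0_le_MM over59 exists_im)
open Pool.Agent.PRL (IsPL)
open Pool.Agent.PRL.CHN17 (Nh Gm AuG tN res17 res17_apply exists_lift17 fin17 nor17 Lvl.l0_le17)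
open Pool.Agent.FF45 (Dl burnside_Dl Dl_pow Dl_comm)

noncomputable section

/-- the action is by automorphisms over `K0`, semilinear, continuous -/
structure ActG {k K0 E U : Type} [Field k] [Field K0] [Field E] [Field U]
    [Algebra k E] [Algebra E U] [Algebra K0 U] (Φ : (E ≃ₐ[k] E) →* (U ≃+* U)) : Prop where
  const : ∀ g (e : E), Φ g (algebraMap E U e) = algebraMap E U (g e)
  fixK : ∀ g (x : K0), Φ g (algebraMap K0 U x) = algebraMap K0 U x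
  cont : ∀ z : U, ∃ L : IntermediateField k E, FiniteDimensional k L ∧
    ∀ g : E ≃ₐ[k] E, (∀ x ∈ L, g x = x) → Φ g z = z

/-- the group theoretic part of the geometry: `L0 ⊂ U` Galois, `r ^ ℓ = h` -/
structure GeoG (K0 E U : Type) [Field K0] [Field E] [Field U] [Algebra E U] [Algebra K0 U]
    (ℓ : ℕ) (h : K0) (r : U) : Prop where
  clE : IsAlgClosed E
  char : CharZero E
  gal : IsGalois (L0 E K0 (U := U)) U
  ff : IsFunctionField E (L0 E K0 (U := U))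
  rpow : r ^ ℓ = algebraMap K0 U h
  rnot : r ∉ L0 E K0 (U := U)

section lev

variable {F k K0 E U : Type} [Field F] [Field k] [Field K0] [Field E] [Field U] [Algebra F k]
  [Algebra k K0] [Algebra k E] [Algebra E U] [Algebra K0 U] [Algebra k U] [IsScalarTower k E U]
  [IsScalarTower k K0 U] {N : IntermediateField E U} {ℓ : ℕ} {h : K0} {r : U}

theorem exists_open_sep (Φ : (E ≃ₐ[k] E) →* (U ≃+* U)) (hΦ : ActG (K0 := K0) Φ)
    {b : Place E (L0 E K0 (U := U))} (hfin : {Q : Place E N | OverPl b Q}.Finite)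
    (hcmp : ∀ Q Q' : Place E N, OverPl b Q → OverPl b Q' → Q ≠ Q' → ∃ z : N, z ∈ Q.ring ∧ z ∉ Q'.ring) :
    ∃ L : IntermediateField k E, FiniteDimensional k L ∧
      ∀ g : E ≃ₐ[k] E, (∀ x ∈ L, g x = x) → ∀ Q Q' : Place E N, OverPl b Q → OverPl b Q' →
        Moves (Φ g) N Q Q' → Q = Q' := by
  classical
  have hf : ∀ p : Place E N × Place E N, ∃ z : U, OverPl b p.1 → OverPl b p.2 → p.1 ≠ p.2 →
      ∃ hz : z ∈ N, (⟨z, hz⟩ : N) ∈ p.1.ring ∧ (⟨z, hz⟩ : N) ∉ p.2.ring := by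
    intro p
    by_cases h1 : OverPl b p.1 ∧ OverPl b p.2 ∧ p.1 ≠ p.2
    · obtain ⟨z, hz⟩ := hcmp p.1 p.2 h1.1 h1.2.1 h1.2.2
      exact ⟨z, fun _ _ _ => ⟨z.2, hz⟩⟩
    · exact ⟨0, fun h2 h3 h4 => absurd ⟨h2, h3, h4⟩ h1⟩
  choose f hf using hf
  obtain ⟨L, hL, hLΦ⟩ := exists_open (k := k) Φ hΦ.cont (f '' ({Q | OverPl b Q} ×ˢ {Q | OverPl b Q}))
    ((hfin.prod hfin).image f)
  refine ⟨L, hL, fun g hg Q Q' hQ hQ' hm => ?_⟩
  by_contra hne
  obtain ⟨hz, h1, h2⟩ := hf (Q, Q') hQ hQ' hne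
  have h3 : Φ g (f (Q, Q')) = f (Q, Q') := hLΦ g hg _ ⟨(Q, Q'), ⟨hQ, hQ'⟩, rfl⟩
  have hz' : Φ g (f (Q, Q')) ∈ N := by rw [h3]; exact hz
  have h4 := (hm _ hz hz').1 h1
  have h5 : (⟨Φ g (f (Q, Q')), hz'⟩ : N) = ⟨f (Q, Q'), hz⟩ := Subtype.ext h3
  rw [h5] at h4
  exact h2 h4

/-- two places of the level above the same place are incomparable -/
theorem exists_sep [IsAlgClosed E] {r : U} (hN : TW.Lvl E K0 N) {b : Place E (L0 E K0 (U := U))}
    (hfin : {Q : Place E N | OverPl b Q}.Finite)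
    (hconj : ∀ Q Q' : Place E N, OverPl b Q → OverPl b Q' →
        ∃ a : U ≃+* U, AuE E K0 a ∧ a r = r ∧ Moves a N Q Q') :
    ∀ Q Q' : Place E N, OverPl b Q → OverPl b Q' → Q ≠ Q' → ∃ z : N, z ∈ Q.ring ∧ z ∉ Q'.ring := by
  intro Q Q' hQ hQ' hne
  by_contra hcon
  push Not at hcon
  -- `Q.ring ≤ Q'.ring`, both of rank one
  apply hne
  have h1 : Q.ring ≤ Q'.ring := fun z hz => hcon z hz
  have h2 : IsDiscreteValuationRing Q.ring := _root_.FF.isDVR hN.ff Q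
  exact Place.ext (ValuationSubring.eq_of_le_of_ne_top _ h1 Q'.ne_top)

/-- **One level.** -/
theorem lev_level [CharZero k] (hAT : StmtAT) (hℓ : ℓ.Prime) (G : GeoG K0 E U ℓ h r)
    (halg : Algebra.IsAlgebraic k E) {S : Set k} {B : Set E} {c : k} {W₀ : ValuationSubring E}
    (hC : HypC F S B ℓ c W₀) (hBf : B.Finite) (hBs : ∀ g : E ≃ₐ[k] E, ∀ b ∈ B, g b ∈ B)
    (hT : TrivB k (U := U) ℓ h B) {Φ : (E ≃ₐ[k] E) →* (U ≃+* U)} (hΦ : ActG (K0 := K0) Φ)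
    (hgood : ∀ W, GoodW F S W → algebraMap k E c ∉ W.nonunits →
      ∀ (b : Place E (L0 E K0 (U := U))) (P : ValuationSubring U), BPl ℓ h b → OverU b P →
      ∀ γ : E ≃ₐ[k] E, InInert W γ → ∀ z, Φ γ z ∈ P ↔ z ∈ P)
    {b : Place E (L0 E K0 (U := U))} (hb : BPl ℓ h b) (hbΦ : ∀ g, Moves (Φ g) _ b b)
    {P : ValuationSubring U} (hP : OverU b P)
    (hPD : ∀ γ : E ≃ₐ[k] E, InDecomp W₀ γ → ∀ z, Φ γ z ∈ P ↔ z ∈ P)
    (hN : TW.Lvl E K0 N) (hMN : MM E K0 r ≤ N) (hPL : IsPL E K0 ℓ N)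
    (hPX : PX E K0 ℓ h r N) (hfin : {Q : Place E N | OverPl b Q}.Finite) :
    ∀ z ∈ N, ∀ g : E ≃ₐ[k] E, Φ g z ∈ P ↔ z ∈ P := by
  classical
  have hcl : IsAlgClosed E := G.clE
  have hch : CharZero E := G.char
  have hgal : IsGalois (L0 E K0 (U := U)) U := G.gal
  have hfd : FiniteDimensional (L0 E K0 (U := U)) (Nh hN) := fin17 hN G.ff
  have hr0 : r ≠ 0 := by
    rintro rfl
    exact G.rnot (zero_mem _)
  have hgE : IsGalois k E := by
    have : Normal k E := ⟨fun x => IsAlgClosed.splits _⟩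
    exact ⟨⟩
  have hLN : L0 E K0 (U := U) ≤ N := Lvl.l0_le17 hN
  -- the homomorphism to the automorphisms of the level
  let Φ' := toAuG Φ hΦ.const hΦ.fixK
  let ρ : (E ≃ₐ[k] E) →* (Nh hN ≃+* Nh hN) := (tNh hN).comp Φ'
  have hρ : ∀ g (z : Nh hN), (ρ g z : U) = Φ g z := fun _ _ => rfl
  have hΦi : ∀ g (z : U), Φ g⁻¹ (Φ g z) = z := fun g z => by
    have h1 : (Φ g⁻¹ * Φ g) z = z := by rw [← map_mul, inv_mul_cancel, map_one]; rfl
    exact h1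
  have hΦi' : ∀ g (z : U), Φ g (Φ g⁻¹ z) = z := fun g z => by
    have h1 : (Φ g * Φ g⁻¹) z = z := by rw [← map_mul, mul_inv_cancel, map_one]; rfl
    exact h1
  have hst : ∀ g, ∀ z ∈ N, Φ g z ∈ N := fun g z hz => hN.stab _ (hΦ.fixK g)
    (fun e => ⟨g e, hΦ.const g e⟩) z hz
  let X := Set (Nh hN)
  let act : MulAction (Nh hN ≃+* Nh hN) X := setAct (Nh hN)
  let Ω : Set X := {s | ∃ Q : Place E N, OverPl b Q ∧ s = sQ hN Q}
  -- the place below `P`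
  have hEP : ∀ e : E, algebraMap E U e ∈ P := fun e => (hP (algebraMap E _ e)).1 (b.algebraMap_mem e)
  have hPne : ∃ z ∈ L0 E K0 (U := U), z ∉ P := by
    by_contra hcon
    push Not at hcon
    exact b.ne_top (eq_top_iff.2 fun z _ => (hP z).2 (hcon z z.2))
  let Q₀ : Place E N := ⟨P.comap (algebraMap N U), fun e => hEP e, by
    intro h1
    obtain ⟨z, hz, hzP⟩ := hPne
    have h2 : (⟨z, hLN hz⟩ : N) ∈ P.comap (algebraMap N U) := by rw [h1]; trivial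
    exact hzP h2⟩
  have hQ₀ : OverPl b Q₀ := fun x hx hx' => hP ⟨x, hx⟩
  let ω₀ : X := sQ hN Q₀
  -- lifts of the elements of `H`
  have hlift : ∀ x ∈ HM E K0 r hN, ∃ a : U ≃+* U, AuE E K0 a ∧ a r = r ∧
      ∀ z : Nh hN, (x z : U) = a z := by
    intro x hx
    obtain ⟨γ, a, ha, -, h2, -, h3⟩ := exists_liftH hN hMN hx
    exact ⟨a, ha, h2, h3⟩
  -- the images of places
  have himg : ∀ T : U ≃+* U, Au E K0 T → Au E K0 T⁻¹ → Moves T _ b b → ∀ Q : Place E N,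
      OverPl b Q → ∃ Q' : Place E N, OverPl b Q' ∧ Moves T N Q Q' := by
    intro T hT1 hT2 hTb Q hQ
    obtain ⟨Q', hQ'⟩ := exists_im (T := T) (hN.stab T hT1.fixK hT1.presE)
      (hN.stab T⁻¹ hT2.fixK hT2.presE) hT2.presE Q
    refine ⟨Q', fun x hx hx' => ?_, hQ'⟩
    have h1 : T⁻¹ x ∈ L0 E K0 (U := U) := map_L0 hT2 x hx
    have h2 : T (T⁻¹ x) = x := T.apply_symm_apply x
    have h3 := hTb (T⁻¹ x) h1 (by rw [h2]; exact hx)
    have h4 := hQ (T⁻¹ x) h1 (hLN h1)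
    have h5 := hQ' (T⁻¹ x) (hLN h1) (by rw [h2]; exact hx')
    have e1 : (⟨T (T⁻¹ x), by rw [h2]; exact hx⟩ : L0 E K0 (U := U)) = ⟨x, hx⟩ := Subtype.ext h2
    have e2 : (⟨T (T⁻¹ x), by rw [h2]; exact hx'⟩ : N) = ⟨x, hx'⟩ := Subtype.ext h2
    rw [e1] at h3
    rw [e2] at h5
    rw [← h3, h4, h5]
  have hAuE : ∀ a : U ≃+* U, AuE E K0 a → Au E K0 a ∧ Au E K0 a⁻¹ ∧ Moves a _ b b := by
    intro a ha
    refine ⟨Pool.Agent.TOW.AuE.au79 ha, Pool.Agent.TOW.AuE.au79 (Pool.Agent.TOW.AuE.inv79 ha),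
      fun x hx hx' => ?_⟩
    have h1 : (⟨a x, hx'⟩ : L0 E K0 (U := U)) = ⟨x, hx⟩ := Subtype.ext (ha.onL0 x hx)
    rw [h1]
  have key := hAT (E ≃ₐ[k] E) (Nh hN ≃+* Nh hN) X ℓ hℓ ρ (HM E K0 r hN) (finite_HM hN G.ff)
    (isPGroup_HM hN hMN hPL) ?_ Ω ?_ ?_ ?_ ?_ (fixB B) ?_ ?_ {δ | InDecomp W₀ δ} ω₀ ⟨Q₀, hQ₀, rfl⟩
    ?_ ?_ ?_
  · intro z hz g
    have h1 := (moves_iff hN (hρ g) Q₀ Q₀).1 (key g)
    exact (h1 z hz (hst g z hz)).symm
  · -- `ρ` normalises `H`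
    intro g x hx z hz
    apply Subtype.ext
    have h1 : ((ρ g)⁻¹ z : Nh hN) = ρ g⁻¹ z := by rw [map_inv]
    change ((ρ g (x ((ρ g)⁻¹ z)) : Nh hN) : U) = z
    rw [h1]
    have h2 : ((ρ g⁻¹ z : Nh hN) : U) ∈ MM E K0 r := by
      rw [hρ]
      exact map_MM hℓ.pos G.rpow hr0 (au_of hΦ.const hΦ.fixK g⁻¹) _ hz
    rw [hx _ h2, hρ, hρ, hΦi']
  · rintro g _ ⟨Q, hQ, rfl⟩
    obtain ⟨Q', hQ', hm⟩ := himg (Φ g) (Φ' g).2.1 (Φ' g).2.2 (hbΦ g) Q hQ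
    exact ⟨Q', hQ', (moves_iff hN (hρ g) Q Q').2 hm⟩
  · rintro x hx _ ⟨Q, hQ, rfl⟩
    obtain ⟨a, ha, -, h3⟩ := hlift x hx
    obtain ⟨h4, h5, h6⟩ := hAuE a ha
    obtain ⟨Q', hQ', hm⟩ := himg a h4 h5 h6 Q hQ
    exact ⟨Q', hQ', (moves_iff hN h3 Q Q').2 hm⟩
  · rintro x hx _ ⟨Q, hQ, rfl⟩ h1
    obtain ⟨a, ha, har, h3⟩ := hlift x hx
    have h4 := hPX.1 a Q ha har ((moves_iff hN h3 Q Q).1 h1)
    ext z
    rw [h3]
    exact h4 z z.2
  · rintro _ ⟨Q, hQ, rfl⟩ _ ⟨Q', hQ', rfl⟩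
    obtain ⟨a, ha, har, hm⟩ := hPX.2 b hb Q Q' hQ hQ'
    let x : Nh hN ≃+* Nh hN := tNh hN ⟨a, (hAuE a ha).1, (hAuE a ha).2.1⟩
    have hx : ∀ z : Nh hN, (x z : U) = a z := fun _ => rfl
    exact ⟨x, mem_HM_of hN ha har hx, (moves_iff hN hx Q Q').2 hm⟩
  · -- `fixB B` is normal
    refine ⟨fun n hn g => ?_⟩
    intro z hz
    change g (n (g⁻¹ z)) = z
    rw [hn _ (hBs g⁻¹ z hz)]
    exact g.apply_symm_apply z
  · intro g hg
    obtain ⟨n, hn⟩ := exists_pow_comm hℓ hN G.ff hPL (Φ' g) (fun a ha z hz =>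
      hT.comm g (Φ g) hg (hΦ.fixK g) (hΦ.const g) a ha z hz)
    refine ⟨n, fun x hx => ?_⟩
    obtain ⟨γ, a, ha, h1, -⟩ := exists_liftH hN hMN hx
    have h2 := hn γ
    rw [h1] at h2
    exact h2
  · intro d hd
    exact (moves_iff hN (hρ d) Q₀ Q₀).2 fun x hx hx' => (hPD d hd x).symm
  · intro g
    obtain ⟨δ, hδ, hδB⟩ := hC.surj g⁻¹
    refine ⟨g * δ, fun z hz => ?_, δ⁻¹, fun z => ?_, by group⟩
    · change g (δ z) = z
      rw [← hδB z hz]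
      exact g.apply_symm_apply z
    · have h1 := hδ (δ⁻¹ z)
      have h2 : δ (δ⁻¹ z) = z := δ.apply_symm_apply z
      rw [h2] at h1
      exact h1.symm
  · -- the Kummer step
    intro 𝔅 h𝔅 hcomm hexp hΩ hconj
    by_contra hne
    obtain ⟨L₁, hL₁, hL₁Φ⟩ := exists_open_sep Φ hΦ hfin (exists_sep (r := r) hN hfin
      fun Q Q' hQ hQ' => hPX.2 b hb Q Q' hQ hQ')
    have hBint : FiniteDimensional k (IntermediateField.adjoin k B) := by
      have := hBf.to_subtype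
      exact IntermediateField.finiteDimensional_adjoin fun x _ => halg.isAlgebraic x |>.isIntegral
    have hfdL : FiniteDimensional k (L₁ ⊔ IntermediateField.adjoin k B : IntermediateField k E) :=
      inferInstance
    obtain ⟨ζ, hζ⟩ : ∃ ζ : E, IsPrimitiveRoot ζ ℓ := by
      have hne : NeZero (ℓ : E) := ⟨Nat.cast_ne_zero.2 hℓ.ne_zero⟩
      exact HasEnoughRootsOfUnity.exists_primitiveRoot E ℓ
    obtain ⟨x, h1, h2, g₀, hg₀, h3⟩ := exists_kummer hℓ.pos (fixB B) 𝔅 h𝔅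
      (L₁ ⊔ IntermediateField.adjoin k B) (fun g hg => by
        have hgB : g ∈ fixB B := fun z hz => hg z
          (le_sup_right (a := L₁) (IntermediateField.subset_adjoin k B hz))
        refine hΩ g hgB ?_
        rintro _ ⟨Q, hQ, rfl⟩
        obtain ⟨Q', hQ', hm⟩ := himg (Φ g) (Φ' g).2.1 (Φ' g).2.2 (hbΦ g) Q hQ
        have h4 : Q = Q' := hL₁Φ g (fun z hz => hg z
          (le_sup_left (b := IntermediateField.adjoin k B) hz)) Q Q' hQ hQ' hm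
        rw [← h4] at hm
        exact (moves_iff hN (hρ g) Q Q).2 hm) hcomm hexp ζ hζ
      (fun g hg => hT.mu g hg ζ hζ.pow_eq_one) hne
    -- the decomposition groups
    have hD : ∀ W, GoodW F S W → algebraMap k E c ∈ W.nonunits → ∀ γ : E ≃ₐ[k] E, InDecomp W γ →
        OnB B γ → γ ∈ 𝔅 := by
      intro W hW hcW γ hγ hγB
      obtain ⟨τ, hτ⟩ := hC.conj W hW hcW
      have h4 := hconj τ⁻¹ (τ * γ * τ⁻¹) (by
        intro z
        change τ (γ (τ⁻¹ z)) ∈ W₀ ↔ z ∈ W₀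
        rw [hτ, hγ, ← hτ]
        have h5 : τ (τ⁻¹ z) = z := τ.apply_symm_apply z
        rw [h5]) (by
        have h5 : τ⁻¹ * (τ * γ * τ⁻¹) * τ⁻¹⁻¹ = γ := by group
        rw [h5]
        exact hγB)
      have h5 : τ⁻¹ * (τ * γ * τ⁻¹) * τ⁻¹⁻¹ = γ := by group
      rwa [h5] at h4
    have hfix := hC.kum x (fun γ hγ => h1 γ hγ) (fun W hW γ hγ hγB => ?_)
      (fun W hW hcW γ hγ hγB => h2 γ (hD W hW hcW γ hγ hγB))
    · exact h3 (hfix g₀ hg₀)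
    · refine h2 γ ?_
      by_cases hcW : algebraMap k E c ∈ W.nonunits
      · exact hD W hW hcW γ hγ.1 hγB
      · refine hΩ γ hγB ?_
        rintro _ ⟨Q, hQ, rfl⟩
        obtain ⟨V, hV⟩ := over59 Q
        have hbV : OverU b V.ring := fun z => by
          have h4 := hQ z z.2 (hLN z.2)
          have h5 := hV z (hLN z.2)
          exact h4.trans h5
        have h4 := hgood W hW hcW b V.ring hb hbV γ hγ
        refine (moves_iff hN (hρ γ) Q Q).2 fun z hz hz' => ?_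
        rw [hV z hz, hV _ hz', h4]

end lev

end

end Pool.Agent.FFS
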