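import Pool.Agent.Helper13.FF.LEVe
import Pool.Agent.Helper45.FF.PX0
import Pool.Agent.Helper45.PD.Unr
import Pool.Agent.Helper81.FF.AT

/-!
# Project FF, block LEV, part 6: all levels
-/

set_option autoImplicit false
set_option linter.unusedSectionVars false

namespace Pool.Agent.FFS

open VC IntermediateField Pool.Agent.SC
open Pool.Agent.L (L0 MM)
open Pool.Agent.LN (Geo Act)
open Pool.Agent.M (Moves OverPl inL0)
open Pool.Agent.ML (BPl)
open Pool.Agent.TOW (Au AuE auE59 inL59 rMM59 L0_le_MM over59 exists_im)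
open Pool.Agent.PRL (IsPL)

noncomputable section

section lev

variable {F k K0 E U : Type} [Field F] [Field k] [Field K0] [Field E] [Field U] [Algebra F k]
  [Algebra k K0] [Algebra k E] [Algebra E U] [Algebra K0 U] [Algebra k U] [IsScalarTower k E U]
  [IsScalarTower k K0 U] {ℓ : ℕ} {h : K0} {r : U}

/-- **The local properties, for an abstract action.** -/
theorem lev_core [CharZero k] (hℓ : ℓ.Prime) (G : GeoG K0 E U ℓ h r)
    (halg : Algebra.IsAlgebraic k E) {S : Set k} {B : Set E} {c : k} {W₀ : ValuationSubring E}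
    (hC : HypC F S B ℓ c W₀) (hBf : B.Finite) (hBs : ∀ g : E ≃ₐ[k] E, ∀ b ∈ B, g b ∈ B)
    (hT : TrivB k (U := U) ℓ h B) {Φ : (E ≃ₐ[k] E) →* (U ≃+* U)} (hΦ : ActG (K0 := K0) Φ)
    (hloc : LocA F K0 ℓ h S c W₀ Φ)
    (hPX : ∀ N : IntermediateField E U, TW.Lvl E K0 N → MM E K0 r ≤ N → IsPL E K0 ℓ N →
      PX E K0 ℓ h r N ∧ ∀ b : Place E (L0 E K0 (U := U)), BPl ℓ h b →
        {Q : Place E N | OverPl b Q}.Finite) :
    ∃ (b : Place E (L0 E K0 (U := U))) (P : ValuationSubring U), BPl ℓ h b ∧ OverU b P ∧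
      (∀ g : E ≃ₐ[k] E, Moves (Φ g) _ b b) ∧
      ∀ N : IntermediateField E U, TW.Lvl E K0 N → MM E K0 r ≤ N → IsPL E K0 ℓ N →
        ∀ z ∈ N, ∀ g : E ≃ₐ[k] E, Φ g z ∈ P ↔ z ∈ P := by
  obtain ⟨b, P, hb, hP, hPD⟩ := hloc.bad
  have hbΦ : ∀ g : E ≃ₐ[k] E, Moves (Φ g) _ b b := by
    intro g
    -- `g = (g δ) δ⁻¹`
    obtain ⟨δ, hδ, hδB⟩ := hC.surj g⁻¹
    have h1 : OnB B (g * δ) := fun z hz => by
      change g (δ z) = z
      rw [← hδB z hz]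
      exact g.apply_symm_apply z
    have h2 := hT.br (g * δ) (Φ (g * δ)) h1 (hΦ.fixK _) (hΦ.const _) b hb
    intro x hx hx'
    have hδx : Φ δ⁻¹ x ∈ L0 E K0 (U := U) := map_L0 (au_of hΦ.const hΦ.fixK δ⁻¹) x hx
    have h3 : Φ δ (Φ δ⁻¹ x) = x := by
      have : (Φ δ * Φ δ⁻¹) x = x := by rw [← map_mul, mul_inv_cancel, map_one]; rfl
      exact this
    have h4 : Φ (g * δ) (Φ δ⁻¹ x) = Φ g x := by
      rw [map_mul]
      change Φ g (Φ δ (Φ δ⁻¹ x)) = Φ g x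
      rw [h3]
    have h5 := h2 (Φ δ⁻¹ x) hδx (by rw [h4]; exact hx')
    have e1 : (⟨Φ (g * δ) (Φ δ⁻¹ x), by rw [h4]; exact hx'⟩ : L0 E K0 (U := U)) =
      ⟨Φ g x, hx'⟩ := Subtype.ext h4
    rw [e1] at h5
    rw [← h5, hP, hP]
    have h6 := hPD δ hδ (Φ δ⁻¹ x)
    rw [h3] at h6
    exact h6
  refine ⟨b, P, hb, hP, hbΦ, fun N hN hMN hPL => ?_⟩
  obtain ⟨h1, h2⟩ := hPX N hN hMN hPL
  exact lev_level stmtAT hℓ G halg hC hBf hBs hT hΦ hloc.good hb hbΦ hP hPD hN hMN hPL h1 (h2 b hb)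

end lev

theorem geoG_of_geo {k K0 E U : Type} [Field k] [CharZero k] [Field K0] [Field E] [Field U]
    [Algebra k K0] [Algebra k E] [Algebra E U] [Algebra K0 U] [Algebra k U] {ℓ : ℕ} {h : K0} {r : U}
    (hℓ : ℓ.Prime) (G : Geo k K0 E U ℓ h r) : GeoG K0 E U ℓ h r := by
  have hE : CharZero E := charZero_of_injective_algebraMap (algebraMap k E).injective
  have hU : CharZero U := charZero_of_injective_algebraMap (algebraMap E U).injective
  refine ⟨G.clE, hE, Pool.Agent.PDL.gal_L0 G.normal, G.ff, G.rpow, ?_⟩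
  have h1 := G.rnot 1 one_pos hℓ.one_lt
  rwa [pow_one] at h1

theorem actG_of_act {k K0 E U : Type} [Field k] [Field K0] [Field E] [Field U]
    [Algebra k K0] [Algebra k E] [Algebra E U] [Algebra K0 U] {ℓ : ℕ} {r : U} {c : k}
    {Φ : (E ≃ₐ[k] E) →* (U ≃+* U)} (A : Act (K0 := K0) ℓ r c Φ) : ActG (K0 := K0) Φ :=
  ⟨A.const, A.fixK, A.cont⟩

/-- **Block LEV.** -/
theorem stmtLEV : StmtLEV := by
  intro F k K0 E U _ _ _ _ _ _ _ _ _ _ _ _ _ _ ℓ h r hℓ G S B c c' W₀ hC hBf hBs hT Φ hΦ hloc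
  refine lev_core hℓ (geoG_of_geo hℓ G) G.algE hC hBf hBs hT (actG_of_act hΦ) hloc ?_
  intro N hN hMN _
  obtain ⟨h1, h2⟩ := stmtPX0 k K0 E U ℓ h r hℓ G N hN hMN
  exact ⟨⟨h1, fun b hb => (h2 b hb).2.2.1⟩, fun b hb => (h2 b hb).2.1⟩

end

end Pool.Agent.FFS
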