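import Pool.Agent.Helper13.FF.LEVf

/-!
# Project FF, block UP: the maximal pro-`ℓ` extension of `M` in `U`

`U'` is the maximal pro-`ℓ` extension of `M = L0(r)` in `U`.  The levels of `U'` and the levels of `U` in `U'`
correspond to each other.
-/

set_option autoImplicit false
set_option linter.unusedSectionVars false

namespace Pool.Agent.FFS

open VC IntermediateField Pool.Agent.SC
open Pool.Agent.L (L0 MM)
open Pool.Agent.LN (Geo Act)
open Pool.Agent.M (Moves OverPl inL0)
open Pool.Agent.ML (BPl)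
open Pool.Agent.TOW (Au AuE auE59 inL59 rMM59 L0_le_MM over59 exists_im)
open Pool.Agent.PRL (IsPL)

noncomputable section

/-- `U'` is the maximal pro-`ℓ` extension of `M = L0(r)` in `U` -/
structure IsPLF (E K0 : Type) {U' : Type} (U : Type) [Field E] [Field K0] [Field U'] [Field U]
    [Algebra E U] [Algebra K0 U] [Algebra U' U] (ℓ : ℕ) (r' : U') : Prop where
  mem : ∀ z : U, (∃ z' : U', algebraMap U' U z' = z) ↔
    ∀ σ : U ≃+* U, AuE E K0 σ → σ (algebraMap U' U r') = algebraMap U' U r' →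
      ∃ j : ℕ, (σ ^ ℓ ^ j) z = z

/-- The order function and isomorphisms of fields. -/
theorem ord_comap_ringEquiv {N N' : Type} [Field N] [Field N'] (σ : N ≃+* N')
    (R : ValuationSubring N') (x : N) : ord (R.comap (σ : N →+* N')) x = ord R (σ x) := by
  have hm : ∀ y : N, y ∈ R.comap (σ : N →+* N') ↔ σ y ∈ R := fun y => Iff.rfl
  have hn : ∀ y : N, y ∈ (R.comap (σ : N →+* N')).nonunits ↔ σ y ∈ R.nonunits := by
    intro y
    rw [ValuationSubring.mem_nonunits_iff_or, ValuationSubring.mem_nonunits_iff_or, hm, map_inv₀,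
      map_eq_zero_iff σ σ.injective]
  have hU : ∀ y : N, IsUniformizer (R.comap (σ : N →+* N')) y ↔ IsUniformizer R (σ y) := by
    intro y
    constructor
    · rintro ⟨h0, h1, h2⟩
      refine ⟨by simpa using h0, (hn y).1 h1, fun z hz => ?_⟩
      have h3 := h2 (σ.symm z) ((hn _).2 (by rwa [σ.apply_symm_apply]))
      rwa [hm, map_div₀, σ.apply_symm_apply] at h3
    · rintro ⟨h0, h1, h2⟩
      refine ⟨by simpa using h0, (hn y).2 h1, fun z hz => ?_⟩
      rw [hm, map_div₀]
      exact h2 _ ((hn z).1 hz)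
  have hH : HasOrd (R.comap (σ : N →+* N')) x = HasOrd R (σ x) := by
    funext n
    apply propext
    constructor
    · rintro ⟨π, v, h1, h2, h3, h4⟩
      refine ⟨σ π, σ v, (hU _).1 h1, (hm _).1 h2, fun h => h3 ((hn _).2 h), ?_⟩
      rw [h4, map_mul, map_zpow₀]
    · rintro ⟨π, v, h1, h2, h3, h4⟩
      refine ⟨σ.symm π, σ.symm v, (hU _).2 (by rwa [σ.apply_symm_apply]),
        (hm _).2 (by rwa [σ.apply_symm_apply]), fun h => h3 ?_, ?_⟩
      · have := (hn _).1 h
        rwa [σ.apply_symm_apply] at this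
      · apply σ.injective
        rw [h4, map_mul, map_zpow₀, σ.apply_symm_apply, σ.apply_symm_apply]
  unfold ord
  rw [hH]

section up

variable {k K0 E U' U : Type} [Field k] [Field K0] [Field E] [Field U'] [Field U]
  [Algebra k K0] [Algebra k E] [Algebra E U'] [Algebra E U] [Algebra U' U] [IsScalarTower E U' U]
  [Algebra K0 U'] [Algebra K0 U] [IsScalarTower K0 U' U] {ℓ : ℕ} {h : K0} {r' : U'}

/-- the inclusion -/
def iE (E U' U : Type) [Field E] [Field U'] [Field U] [Algebra E U'] [Algebra E U] [Algebra U' U]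
    [IsScalarTower E U' U] : U' →ₐ[E] U := IsScalarTower.toAlgHom E U' U

theorem iE_apply (z : U') : iE E U' U z = algebraMap U' U z := rfl

theorem map_L0_iE : (L0 E K0 (U := U')).map (iE E U' U) = L0 E K0 (U := U) := by
  unfold L0
  rw [IntermediateField.adjoin_map]
  congr 1
  ext z
  constructor
  · rintro ⟨_, ⟨x, rfl⟩, rfl⟩
    exact ⟨x, (IsScalarTower.algebraMap_apply K0 U' U x)⟩
  · rintro ⟨x, rfl⟩
    exact ⟨_, ⟨x, rfl⟩, (IsScalarTower.algebraMap_apply K0 U' U x).symm⟩

theorem map_MM_iE : (MM E K0 r').map (iE E U' U) = MM E K0 (algebraMap U' U r') := by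
  unfold MM
  rw [IntermediateField.adjoin_map]
  congr 1
  ext z
  constructor
  · rintro ⟨_, (⟨x, rfl⟩ | hx), rfl⟩
    · exact Or.inl ⟨x, (IsScalarTower.algebraMap_apply K0 U' U x)⟩
    · rw [Set.mem_singleton_iff] at hx
      rw [hx]
      exact Or.inr rfl
  · rintro (⟨x, rfl⟩ | hx)
    · exact ⟨_, Or.inl ⟨x, rfl⟩, (IsScalarTower.algebraMap_apply K0 U' U x).symm⟩
    · rw [Set.mem_singleton_iff] at hx
      rw [hx]
      exact ⟨r', Or.inr rfl, rfl⟩

/-- the isomorphism of a level with its image -/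
def upE {N' : IntermediateField E U'} {N : IntermediateField E U} (hN : N'.map (iE E U' U) = N) :
    N' ≃ₐ[E] N := (N'.equivMap (iE E U' U)).trans (IntermediateField.equivOfEq hN)

theorem coe_upE {N' : IntermediateField E U'} {N : IntermediateField E U}
    (hN : N'.map (iE E U' U) = N) (z : N') : (upE hN z : U) = algebraMap U' U z := rfl

/-- the image of a place -/
def upPl {N' : IntermediateField E U'} {N : IntermediateField E U} (hN : N'.map (iE E U' U) = N)
    (Q : Place E N') : Place E N where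
  ring := Q.ring.comap ((upE hN).symm.toRingEquiv : N →+* N')
  algebraMap_mem a := by
    change (upE hN).symm (algebraMap E N a) ∈ Q.ring
    rw [AlgEquiv.commutes]
    exact Q.algebraMap_mem a
  ne_top h1 := Q.ne_top (eq_top_iff.2 fun z _ => by
    have h2 : upE hN z ∈ Q.ring.comap ((upE hN).symm.toRingEquiv : N →+* N') := by rw [h1]; trivial
    have h3 : (upE hN).symm (upE hN z) ∈ Q.ring := h2
    rwa [AlgEquiv.symm_apply_apply] at h3)

theorem mem_upPl {N' : IntermediateField E U'} {N : IntermediateField E U}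
    {hN : N'.map (iE E U' U) = N} {Q : Place E N'} {z : U'} (hz : z ∈ N')
    (hz' : algebraMap U' U z ∈ N) :
    (⟨algebraMap U' U z, hz'⟩ : N) ∈ (upPl hN Q).ring ↔ (⟨z, hz⟩ : N') ∈ Q.ring := by
  have h1 : (⟨algebraMap U' U z, hz'⟩ : N) = upE hN ⟨z, hz⟩ := Subtype.ext rfl
  have h2 : (upE hN).symm (⟨algebraMap U' U z, hz'⟩ : N) = ⟨z, hz⟩ := by
    rw [h1, AlgEquiv.symm_apply_apply]
  change (upE hN).symm (⟨algebraMap U' U z, hz'⟩ : N) ∈ Q.ring ↔ _
  rw [h2]

theorem upPl_inj {N' : IntermediateField E U'} {N : IntermediateField E U}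
    {hN : N'.map (iE E U' U) = N} {Q Q' : Place E N'} (h : upPl hN Q = upPl hN Q') : Q = Q' := by
  apply Place.ext
  apply SetLike.ext
  intro z
  have hz' : algebraMap U' U z ∈ N := by rw [← hN]; exact ⟨z, z.2, rfl⟩
  have h1 : (⟨algebraMap U' U z, hz'⟩ : N) ∈ (upPl hN Q).ring ↔
    (⟨algebraMap U' U z, hz'⟩ : N) ∈ (upPl hN Q').ring := by rw [h]
  rwa [mem_upPl z.2 hz', mem_upPl z.2 hz'] at h1

theorem mem_N_iff {N' : IntermediateField E U'} {N : IntermediateField E U}
    (hN : N'.map (iE E U' U) = N) (z : U') : algebraMap U' U z ∈ N ↔ z ∈ N' := by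
  rw [← hN]
  constructor
  · rintro ⟨w, hw, hwz⟩
    rwa [← (algebraMap U' U).injective hwz]
  · exact fun hz => ⟨z, hz, rfl⟩

theorem exists_of_mem_N {N' : IntermediateField E U'} {N : IntermediateField E U}
    (hN : N'.map (iE E U' U) = N) {z : U} (hz : z ∈ N) : ∃ z' ∈ N', algebraMap U' U z' = z := by
  rw [← hN] at hz
  obtain ⟨w, hw, hwz⟩ := hz
  exact ⟨w, hw, hwz⟩

theorem upPl_overPl {N₁' N₂' : IntermediateField E U'} {N₁ N₂ : IntermediateField E U}
    (h₁ : N₁'.map (iE E U' U) = N₁) (h₂ : N₂'.map (iE E U' U) = N₂) {Q : Place E N₁'}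
    {Q' : Place E N₂'} : OverPl (upPl h₁ Q) (upPl h₂ Q') ↔ OverPl Q Q' := by
  constructor
  · intro h z hz hz'
    have h3 := h _ ((mem_N_iff h₁ z).2 hz) ((mem_N_iff h₂ z).2 hz')
    rwa [mem_upPl hz, mem_upPl hz'] at h3
  · intro h z hz hz'
    obtain ⟨w, hw, rfl⟩ := exists_of_mem_N h₁ hz
    rw [mem_upPl hw, mem_upPl ((mem_N_iff h₂ w).1 hz')]
    exact h w hw _

theorem upPl_moves {N' : IntermediateField E U'} {N : IntermediateField E U}
    (hN : N'.map (iE E U' U) = N) {Q Q' : Place E N'} {T' : U' ≃+* U'} {T : U ≃+* U}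
    (hT : ∀ z, T (algebraMap U' U z) = algebraMap U' U (T' z)) :
    Moves T N (upPl hN Q) (upPl hN Q') ↔ Moves T' N' Q Q' := by
  constructor
  · intro h z hz hz'
    have h1 : T (algebraMap U' U z) ∈ N := by rw [hT]; exact (mem_N_iff hN _).2 hz'
    have h3 := h _ ((mem_N_iff hN z).2 hz) h1
    rw [mem_upPl hz] at h3
    rw [h3]
    have h4 : (⟨T (algebraMap U' U z), h1⟩ : N) = ⟨algebraMap U' U (T' z), (mem_N_iff hN _).2 hz'⟩ :=
      Subtype.ext (hT z)
    rw [h4, mem_upPl hz']
  · intro h z hz hz'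
    obtain ⟨w, hw, rfl⟩ := exists_of_mem_N hN hz
    have hw' : T' w ∈ N' := by
      rw [hT] at hz'
      exact (mem_N_iff hN _).1 hz'
    have h4 : (⟨T (algebraMap U' U w), hz'⟩ : N) = ⟨algebraMap U' U (T' w), (mem_N_iff hN _).2 hw'⟩ :=
      Subtype.ext (hT w)
    rw [mem_upPl hw, h4, mem_upPl hw']
    exact h w hw hw'

/-- the place below -/
def dnPl {N' : IntermediateField E U'} {N : IntermediateField E U} (hN : N'.map (iE E U' U) = N)
    (Q : Place E N) : Place E N' where
  ring := Q.ring.comap ((upE hN).toRingEquiv : N' →+* N)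
  algebraMap_mem a := by
    change (upE hN) (algebraMap E N' a) ∈ Q.ring
    rw [AlgEquiv.commutes]
    exact Q.algebraMap_mem a
  ne_top h1 := Q.ne_top (eq_top_iff.2 fun z _ => by
    have h2 : (upE hN).symm z ∈ Q.ring.comap ((upE hN).toRingEquiv : N' →+* N) := by
      rw [h1]; trivial
    have h3 : (upE hN) ((upE hN).symm z) ∈ Q.ring := h2
    rwa [AlgEquiv.apply_symm_apply] at h3)

theorem up_dnPl {N' : IntermediateField E U'} {N : IntermediateField E U}
    (hN : N'.map (iE E U' U) = N) (Q : Place E N) : upPl hN (dnPl hN Q) = Q := by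
  apply Place.ext
  apply SetLike.ext
  intro z
  change (upE hN) ((upE hN).symm z) ∈ Q.ring ↔ _
  rw [AlgEquiv.apply_symm_apply]

theorem ord_upPl {N' : IntermediateField E U'} {N : IntermediateField E U}
    (hN : N'.map (iE E U' U) = N) (Q : Place E N') (x : N') :
    ord (upPl hN Q).ring (upE hN x) = ord Q.ring x := by
  have h1 := ord_comap_ringEquiv (upE hN).symm.toRingEquiv Q.ring (upE hN x)
  have h2 : (upE hN).symm.toRingEquiv (upE hN x) = x := (upE hN).symm_apply_apply x
  rw [h2] at h1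
  exact h1

theorem upE_inL0 (x : K0) : upE (U := U) map_L0_iE (inL0 (E := E) (U := U') x) = inL0 x := by
  apply Subtype.ext
  rw [coe_upE]
  exact (IsScalarTower.algebraMap_apply K0 U' U x).symm

theorem bPl_iff {b : Place E (L0 E K0 (U := U'))} :
    BPl ℓ h (upPl (U := U) map_L0_iE b) ↔ BPl ℓ h b := by
  have h1 := ord_upPl (U := U) map_L0_iE b (inL0 h)
  rw [upE_inL0] at h1
  unfold BPl
  rw [h1]

end up

end

end Pool.Agent.FFS
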