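import Pool.Agent.Helper13.FF.UPa

/-!
# Project FF, block UP, part 2: automorphisms
-/

set_option autoImplicit false
set_option linter.unusedSectionVars false

namespace Pool.Agent.FFS

open VC IntermediateField Pool.Agent.SC
open Pool.Agent.L (L0 MM)
open Pool.Agent.LN (Geo Act)
open Pool.Agent.M (Moves OverPl inL0)
open Pool.Agent.ML (BPl)
open Pool.Agent.TOW (Au AuE auE59 inL59 rMM59 L0_le_MM over59 exists_im)
open Pool.Agent.PRL (IsPL)

noncomputable section

section up

variable {k K0 E U' U : Type} [Field k] [Field K0] [Field E] [Field U'] [Field U]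
  [Algebra k K0] [Algebra k E] [Algebra E U'] [Algebra E U] [Algebra U' U] [IsScalarTower E U' U]
  [Algebra K0 U'] [Algebra K0 U] [IsScalarTower K0 U' U] [Algebra k U] [IsScalarTower k E U]
  [IsScalarTower k K0 U] {ℓ : ℕ} {h : K0} {r' : U'}

/-- `T` extends `T'` -/
def Ext (T' : U' ≃+* U') (T : U ≃+* U) : Prop :=
  ∀ z, T (algebraMap U' U z) = algebraMap U' U (T' z)

theorem exists_ext (hn : Normal K0 U) (T' : U' ≃+* U')
    (hT : ∀ x : K0, T' (algebraMap K0 U' x) = algebraMap K0 U' x) : ∃ T : U ≃+* U, Ext T' T := by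
  let χ : U' ≃ₐ[K0] U' := AlgEquiv.ofRingEquiv (f := T') hT
  exact ⟨(χ.liftNormal U).toRingEquiv, fun z => χ.liftNormal_commutes U z⟩

theorem Ext.fixK {T' : U' ≃+* U'} {T : U ≃+* U} (h : Ext T' T) :
    (∀ x : K0, T (algebraMap K0 U x) = algebraMap K0 U x) ↔
      ∀ x : K0, T' (algebraMap K0 U' x) = algebraMap K0 U' x := by
  refine forall_congr' fun x => ?_
  rw [IsScalarTower.algebraMap_apply K0 U' U, h]
  exact (algebraMap U' U).injective.eq_iff

theorem Ext.const {T' : U' ≃+* U'} {T : U ≃+* U} (h : Ext T' T) (e e' : E) :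
    T (algebraMap E U e) = algebraMap E U e' ↔ T' (algebraMap E U' e) = algebraMap E U' e' := by
  rw [IsScalarTower.algebraMap_apply E U' U, IsScalarTower.algebraMap_apply E U' U e', h]
  exact (algebraMap U' U).injective.eq_iff

theorem Ext.au {T' : U' ≃+* U'} {T : U ≃+* U} (h : Ext T' T) : Au E K0 T ↔ Au E K0 T' :=
  ⟨fun hT => ⟨h.fixK.1 hT.fixK, fun e => by
    obtain ⟨e', he'⟩ := hT.presE e
    exact ⟨e', (h.const e e').1 he'⟩⟩,
  fun hT => ⟨h.fixK.2 hT.fixK, fun e => by
    obtain ⟨e', he'⟩ := hT.presE e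
    exact ⟨e', (h.const e e').2 he'⟩⟩⟩

theorem Ext.auE {T' : U' ≃+* U'} {T : U ≃+* U} (h : Ext T' T) : AuE E K0 T ↔ AuE E K0 T' :=
  ⟨fun hT => ⟨h.fixK.1 hT.fixK, fun e => (h.const e e).1 (hT.fixE e)⟩,
  fun hT => ⟨h.fixK.2 hT.fixK, fun e => (h.const e e).2 (hT.fixE e)⟩⟩

theorem Ext.pow {T' : U' ≃+* U'} {T : U ≃+* U} (h : Ext T' T) (n : ℕ) : Ext (T' ^ n) (T ^ n) := by
  intro z
  induction n generalizing z with
  | zero => rfl
  | succ n ih =>
    rw [pow_succ, pow_succ]
    change (T ^ n) (T (algebraMap U' U z)) = algebraMap U' U ((T' ^ n) (T' z))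
    rw [h, ih]

/-- an automorphism over `k` maps constants to constants -/
theorem presE_of [IsAlgClosed E] (halg : Algebra.IsAlgebraic k E) {T : U ≃+* U}
    (hT : ∀ x : k, T (algebraMap k U x) = algebraMap k U x) (e : E) :
    ∃ e' : E, T (algebraMap E U e) = algebraMap E U e' := by
  let χ : U →ₐ[k] U := { (T : U →+* U) with commutes' := hT }
  have h1 : IsIntegral k (algebraMap E U e) := (halg.isIntegral.isIntegral e).map
    (IsScalarTower.toAlgHom k E U)
  have h2 : IsIntegral k (χ (algebraMap E U e)) := h1.map χ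
  have h3 : IsIntegral E (χ (algebraMap E U e)) := h2.tower_top
  have h4 := IsAlgClosed.degree_eq_one_of_irreducible E (minpoly.irreducible h3)
  obtain ⟨e', he'⟩ := minpoly.mem_range_of_degree_eq_one E _ h4
  exact ⟨e', he'.symm⟩

theorem IsPLF.maps (P : IsPLF E K0 U ℓ r') (G : Geo k K0 E U ℓ h (algebraMap U' U r'))
    (hℓ : 0 < ℓ) (hr : r' ≠ 0) {T : U ≃+* U} (hT : Au E K0 T) (z : U') :
    ∃ z' : U', T (algebraMap U' U z) = algebraMap U' U z' := by
  have hcl : IsAlgClosed E := G.clE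
  have h1 := (P.mem (T (algebraMap U' U z))).2 ?_
  · obtain ⟨z', hz'⟩ := h1
    exact ⟨z', hz'.symm⟩
  intro σ hσ hσr
  have h2 := (P.mem (algebraMap U' U z)).1 ⟨z, rfl⟩ (T⁻¹ * σ * T⁻¹⁻¹) ?_ ?_
  · obtain ⟨j, hj⟩ := h2
    refine ⟨j, ?_⟩
    rw [conj_pow] at hj
    change T⁻¹ ((σ ^ ℓ ^ j) (T (algebraMap U' U z))) = algebraMap U' U z at hj
    have h3 := congrArg T hj
    have h4 : T (T⁻¹ ((σ ^ ℓ ^ j) (T (algebraMap U' U z)))) = (σ ^ ℓ ^ j) (T (algebraMap U' U z)) :=
      T.apply_symm_apply _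
    rw [h4] at h3
    exact h3
  · constructor
    · intro x
      change T⁻¹ (σ (T (algebraMap K0 U x))) = algebraMap K0 U x
      rw [hT.fixK, hσ.fixK]
      have h3 : T⁻¹ (T (algebraMap K0 U x)) = algebraMap K0 U x := T.symm_apply_apply _
      rw [hT.fixK] at h3
      exact h3
    · intro e
      change T⁻¹ (σ (T (algebraMap E U e))) = algebraMap E U e
      obtain ⟨e', he'⟩ := hT.presE e
      have h3 : T⁻¹ (T (algebraMap E U e)) = algebraMap E U e := T.symm_apply_apply _
      rw [he', hσ.fixE, ← he']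
      exact h3
  · change T⁻¹ (σ (T (algebraMap U' U r'))) = algebraMap U' U r'
    have hr0 : algebraMap U' U r' ≠ 0 := (map_ne_zero_iff _ (algebraMap U' U).injective).2 hr
    obtain ⟨ζ, -, hζ⟩ := Pool.Agent.PDL.eig_root (E := E) hℓ hr0 (T := T)
      (by rw [G.rpow, hT.fixK])
    have h3 : T⁻¹ (T (algebraMap U' U r')) = algebraMap U' U r' := T.symm_apply_apply _
    have h4 : σ (T (algebraMap U' U r')) = T (algebraMap U' U r') := by
      rw [hζ, map_mul, hσ.fixE, hσr]
    rw [h4]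
    exact h3

theorem exists_res (P : IsPLF E K0 U ℓ r') (G : Geo k K0 E U ℓ h (algebraMap U' U r'))
    (hℓ : 0 < ℓ) (hr : r' ≠ 0) {T : U ≃+* U} (hT : Au E K0 T) : ∃ T' : U' ≃+* U', Ext T' T := by
  choose f hf using P.maps G hℓ hr hT
  have hinj := (algebraMap U' U).injective
  have hn : Normal K0 U := G.normal
  have halg : Algebra.IsAlgebraic K0 U' := by
    have : Algebra.IsAlgebraic K0 U := inferInstance
    exact Algebra.IsAlgebraic.tower_bot K0 U' U
  let g : U' →ₐ[K0] U' :=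
    { toFun := f
      map_one' := hinj (by rw [← hf, map_one, map_one])
      map_mul' := fun x y => hinj (by rw [← hf, map_mul, map_mul, map_mul, hf, hf])
      map_zero' := hinj (by rw [← hf, map_zero, map_zero])
      map_add' := fun x y => hinj (by rw [← hf, map_add, map_add, map_add, hf, hf])
      commutes' := fun x => hinj (by
        rw [← hf, ← IsScalarTower.algebraMap_apply K0 U' U, hT.fixK]) }
  exact ⟨RingEquiv.ofBijective (g : U' →+* U') (Algebra.IsAlgebraic.algHom_bijective g), hf⟩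

theorem normal_up (P : IsPLF E K0 U ℓ r') (G : Geo k K0 E U ℓ h (algebraMap U' U r'))
    (hℓ : 0 < ℓ) (hr : r' ≠ 0) : Normal K0 U' := by
  have hn : Normal K0 U := G.normal
  have hcl : IsAlgClosed E := G.clE
  let i : U' →ₐ[K0] U := IsScalarTower.toAlgHom K0 U' U
  have h1 : Normal K0 i.fieldRange := by
    rw [IntermediateField.normal_iff_forall_map_le']
    rintro σ _ ⟨_, ⟨z, rfl⟩, rfl⟩
    have h2 : Au E K0 (σ : U ≃+* U) := ⟨fun x => σ.commutes x, presE_of G.algE fun x => by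
      rw [IsScalarTower.algebraMap_apply k K0 U]
      exact σ.commutes _⟩
    obtain ⟨z', hz'⟩ := P.maps G hℓ hr h2 z
    exact ⟨z', hz'.symm⟩
  let e : i.fieldRange ≃ₐ[K0] U' := (AlgEquiv.ofInjectiveField i).symm
  exact Normal.of_algEquiv e

theorem up_geoG [CharZero k] (P : IsPLF E K0 U ℓ r') (G : Geo k K0 E U ℓ h (algebraMap U' U r'))
    (hℓ : ℓ.Prime) : GeoG K0 E U' ℓ h r' := by
  have hinj := (algebraMap U' U).injective
  have hE : CharZero E := charZero_of_injective_algebraMap (algebraMap k E).injective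
  have hU' : CharZero U' := charZero_of_injective_algebraMap (algebraMap E U').injective
  have G' := geoG_of_geo hℓ G
  have hr0 : r' ∉ L0 E K0 (U := U') := by
    intro h1
    exact G'.rnot ((mem_N_iff map_L0_iE r').2 h1)
  have hr : r' ≠ 0 := by
    rintro rfl
    exact hr0 (zero_mem _)
  refine ⟨G.clE, hE, Pool.Agent.PDL.gal_L0 (normal_up P G hℓ.pos hr), ?_, ?_, hr0⟩
  · exact isFunctionField_of_equiv (upE (U := U) (N' := L0 E K0 (U := U')) map_L0_iE).symm G.ff
  · apply hinj
    rw [map_pow, G.rpow, IsScalarTower.algebraMap_apply K0 U' U]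

end up

end

end Pool.Agent.FFS
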