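import Pool.Agent.Helper13.FF.UPb

/-!
# Project FF, block UP, part 3: the theorem for the maximal pro-`ℓ` extension
-/

set_option autoImplicit false
set_option linter.unusedSectionVars false

namespace Pool.Agent.FFS

open VC IntermediateField Pool.Agent.SC
open Pool.Agent.L (L0 MM)
open Pool.Agent.LN (Geo Act)
open Pool.Agent.M (Moves OverPl inL0)
open Pool.Agent.ML (BPl)
open Pool.Agent.TOW (Au AuE auE59 inL59 rMM59 L0_le_MM over59 exists_im)
open Pool.Agent.PRL (IsPL)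

noncomputable section

section up

variable {F k K0 E U' U : Type} [Field F] [Field k] [CharZero k] [Field K0] [Field E] [Field U']
  [Field U] [Algebra F k]
  [Algebra k K0] [Algebra k E] [Algebra E U'] [Algebra E U] [Algebra U' U] [IsScalarTower E U' U]
  [Algebra K0 U'] [Algebra K0 U] [IsScalarTower K0 U' U] [Algebra k U] [IsScalarTower k E U]
  [IsScalarTower k K0 U] {ℓ : ℕ} {h : K0} {r' : U'}

theorem hr_of (G : Geo k K0 E U ℓ h (algebraMap U' U r')) (hℓ : ℓ.Prime) : r' ≠ 0 := by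
  rintro rfl
  exact (geoG_of_geo hℓ G).rnot (by rw [map_zero]; exact zero_mem _)

/-- levels of `U'` are levels of `U` -/
theorem lvl_map (P : IsPLF E K0 U ℓ r') (G : Geo k K0 E U ℓ h (algebraMap U' U r'))
    (hℓ : ℓ.Prime) {N' : IntermediateField E U'} {N : IntermediateField E U}
    (hN : N'.map (iE E U' U) = N) (hL : TW.Lvl E K0 N') : TW.Lvl E K0 N where
  ff := isFunctionField_of_equiv (upE hN) hL.ff
  le x := by
    rw [IsScalarTower.algebraMap_apply K0 U' U]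
    exact (mem_N_iff hN _).2 (hL.le x)
  stab T h1 h2 z hz := by
    obtain ⟨T', hT'⟩ := exists_res P G hℓ.pos (hr_of G hℓ) (T := T) ⟨h1, h2⟩
    have h3 : Au E K0 T' := hT'.au.1 ⟨h1, h2⟩
    obtain ⟨w, hw, rfl⟩ := exists_of_mem_N hN hz
    rw [hT']
    exact (mem_N_iff hN _).2 (hL.stab T' h3.fixK h3.presE w hw)

/-- levels of `U` in `U'` are levels of `U'` -/
theorem lvl_comap (G : Geo k K0 E U ℓ h (algebraMap U' U r'))
    {N' : IntermediateField E U'} {N : IntermediateField E U}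
    (hN : N'.map (iE E U' U) = N) (hL : TW.Lvl E K0 N) : TW.Lvl E K0 N' where
  ff := isFunctionField_of_equiv (upE hN).symm hL.ff
  le x := by
    rw [← mem_N_iff hN, ← IsScalarTower.algebraMap_apply K0 U' U]
    exact hL.le x
  stab T' h1 h2 z hz := by
    obtain ⟨T, hT⟩ := exists_ext (U := U) G.normal T' h1
    have h3 : Au E K0 T := hT.au.2 ⟨h1, h2⟩
    rw [← mem_N_iff hN, ← hT]
    exact hL.stab T h3.fixK h3.presE _ ((mem_N_iff hN _).2 hz)

theorem isPL_comap (G : Geo k K0 E U ℓ h (algebraMap U' U r'))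
    {N' : IntermediateField E U'} {N : IntermediateField E U}
    (hN : N'.map (iE E U' U) = N) (hPL : IsPL E K0 ℓ N) : IsPL E K0 ℓ N' := by
  intro a ha
  obtain ⟨T, hT⟩ := exists_ext (U := U) G.normal a ha.fixK
  obtain ⟨j, hj⟩ := hPL T (hT.auE.2 ha)
  refine ⟨j, fun z hz => (algebraMap U' U).injective ?_⟩
  rw [← hT.pow, hj _ ((mem_N_iff hN _).2 hz)]

/-- `PX` for the levels of `U'` -/
theorem pX_up (P : IsPLF E K0 U ℓ r') (G : Geo k K0 E U ℓ h (algebraMap U' U r'))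
    (hℓ : ℓ.Prime) (N' : IntermediateField E U') (hL : TW.Lvl E K0 N') (hM : MM E K0 r' ≤ N') :
    PX E K0 ℓ h r' N' ∧ ∀ b : Place E (L0 E K0 (U := U')), BPl ℓ h b →
      {Q : Place E N' | OverPl b Q}.Finite := by
  have hinj := (algebraMap U' U).injective
  set N : IntermediateField E U := N'.map (iE E U' U) with hNdef
  have hN : N'.map (iE E U' U) = N := rfl
  have hr := hr_of G hℓ
  have hMN : MM E K0 (algebraMap U' U r') ≤ N := by
    rw [← map_MM_iE]
    exact IntermediateField.map_mono _ hM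
  obtain ⟨h1, h2⟩ := stmtPX0 k K0 E U ℓ h _ hℓ G N (lvl_map P G hℓ hN hL) hMN
  refine ⟨⟨fun T' Q hT' hTr hm z hz => ?_, fun b hb Q Q' hQ hQ' => ?_⟩, fun b hb => ?_⟩
  · obtain ⟨T, hT⟩ := exists_ext (U := U) G.normal T' hT'.fixK
    apply hinj
    rw [← hT]
    exact h1 T (upPl hN Q) (hT.auE.2 hT') (by rw [hT, hTr]) ((upPl_moves hN hT).2 hm) _
      ((mem_N_iff hN _).2 hz)
  · obtain ⟨-, -, h3, -⟩ := h2 (upPl map_L0_iE b) (bPl_iff.2 hb)
    obtain ⟨a, ha, har, hm⟩ := h3 (upPl hN Q) (upPl hN Q') ((upPl_overPl map_L0_iE hN).2 hQ)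
      ((upPl_overPl map_L0_iE hN).2 hQ')
    obtain ⟨a', ha'⟩ := exists_res P G hℓ.pos hr (Pool.Agent.TOW.AuE.au79 ha)
    refine ⟨a', ha'.auE.1 ha, hinj ?_, (upPl_moves hN ha').1 hm⟩
    rw [← ha', har]
  · obtain ⟨-, h3, -, -⟩ := h2 (upPl map_L0_iE b) (bPl_iff.2 hb)
    refine (h3.preimage (f := fun Q : Place E N' => upPl hN Q) fun _ _ _ _ h => upPl_inj h).subset ?_
    intro Q hQ
    exact (upPl_overPl map_L0_iE hN).2 hQ

theorem trivB_up (hn : Normal K0 U) {B : Set E} (hT : TrivB k (U := U) ℓ h B) :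
    TrivB k (U := U') ℓ h B where
  mu := hT.mu
  br γ T' hγ h1 h2 b hb := by
    obtain ⟨T, hT'⟩ := exists_ext (U := U) hn T' h1
    exact (upPl_moves map_L0_iE hT').1 (hT.br γ T hγ (hT'.fixK.2 h1)
      (fun e => (hT'.const e _).2 (h2 e)) _ (bPl_iff.2 hb))
  comm γ T' hγ h1 h2 a' ha' z hz := by
    obtain ⟨T, hT'⟩ := exists_ext (U := U) hn T' h1
    obtain ⟨a, ha⟩ := exists_ext (U := U) hn a' ha'.fixK
    apply (algebraMap U' U).injective
    have h3 := hT.comm γ T hγ (hT'.fixK.2 h1) (fun e => (hT'.const e _).2 (h2 e)) a (ha.auE.2 ha')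
      (algebraMap U' U z) (by rw [← map_pow]; exact (mem_N_iff map_L0_iE _).2 hz)
    rw [ha, hT', hT', ha] at h3
    exact h3

theorem comap_map_of_isPL (P : IsPLF E K0 U ℓ r') {N : IntermediateField E U}
    (hPL : IsPL E K0 ℓ N) : (N.comap (iE E U' U)).map (iE E U' U) = N := by
  apply le_antisymm
  · rintro _ ⟨w, hw, rfl⟩
    exact hw
  · intro z hz
    obtain ⟨z', hz'⟩ := (P.mem z).2 fun σ hσ _ => by
      obtain ⟨j, hj⟩ := hPL σ hσ
      exact ⟨j, hj z hz⟩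
    refine ⟨z', ?_, hz'⟩
    change algebraMap U' U z' ∈ N
    rwa [hz']

/-- **Block UP.**  An action on the maximal pro-`ℓ` extension `U'` of `M` which satisfies the local properties fixes,
on all levels, the place below one place `P`. -/
theorem lev_up (hℓ : ℓ.Prime) (P' : IsPLF E K0 U ℓ r')
    (G : Geo k K0 E U ℓ h (algebraMap U' U r')) {S : Set k} {B : Set E} {c : k}
    {W₀ : ValuationSubring E} (hC : HypC F S B ℓ c W₀) (hBf : B.Finite)
    (hBs : ∀ g : E ≃ₐ[k] E, ∀ b ∈ B, g b ∈ B) (hT : TrivB k (U := U) ℓ h B)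
    [Algebra k U'] [IsScalarTower k E U'] [IsScalarTower k K0 U']
    {Φ : (E ≃ₐ[k] E) →* (U' ≃+* U')} (hΦ : ActG (K0 := K0) Φ) (hloc : LocA F K0 ℓ h S c W₀ Φ) :
    ∃ (b : Place E (L0 E K0 (U := U'))) (P : ValuationSubring U'), BPl ℓ h b ∧ OverU b P ∧
      (∀ g : E ≃ₐ[k] E, Moves (Φ g) _ b b) ∧
      ∀ N : IntermediateField E U, TW.Lvl E K0 N → MM E K0 (algebraMap U' U r') ≤ N →
        IsPL E K0 ℓ N → ∀ z : U', algebraMap U' U z ∈ N → ∀ g : E ≃ₐ[k] E, Φ g z ∈ P ↔ z ∈ P := by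
  obtain ⟨b, P, hb, hbP, hbΦ, hlev⟩ := lev_core hℓ (up_geoG P' G hℓ) G.algE hC hBf hBs
    (trivB_up G.normal hT) hΦ hloc (fun N' hN' hM' _ => pX_up P' G hℓ N' hN' hM')
  refine ⟨b, P, hb, hbP, hbΦ, fun N hL hM hPL z hz g => ?_⟩
  have hN := comap_map_of_isPL P' hPL
  refine hlev (N.comap (iE E U' U)) (lvl_comap G hN hL) ?_ (isPL_comap G hN hPL) z hz g
  intro w hw
  change algebraMap U' U w ∈ N
  refine hM ?_
  rw [← map_MM_iE]
  exact ⟨w, hw, rfl⟩

end up

end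

end Pool.Agent.FFS
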